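import Pool.Agent.K7.H52.TF.Temp
set_option autoImplicit false

/-!
Tempered polynomials in one variable, and the polynomials of the nodal curves
`y_0 + 1/y_0 + y_1 + 1/y_1 = ± 4`.
-/

namespace Pool.Agent.K7.H52.TF

open Pool.Agent.TH826.MK

open Pool.Agent.TH826.SX (symb_self symb_self_neg symb_upd_one symb_upd_inv symb_upd_neg)

open Pool.Agent.TH826.EF (onePart onePart_le)

open scoped WithZero

section cyc

open Polynomial

/-- A polynomial in one variable as a polynomial in the variable `y_0`. -/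
noncomputable def oneVar {K : Type*} [Field K] (p : K[X]) : MvPolynomial (Fin 1) K :=
  p.eval₂ MvPolynomial.C (MvPolynomial.X 0)

theorem exists_quotient {K : Type*} [Field K] {p P : K[X]} (hp : p.Monic)
    (hi : ∀ i, IsIntegral ℤ (p.coeff i)) (hP : ∃ P' : (integralClosure ℤ K)[X],
      P'.map (algebraMap (integralClosure ℤ K) K) = P) (h : p ∣ P) :
    ∃ r : K[X], (∀ i, IsIntegral ℤ (r.coeff i)) ∧ P = p * r := by
  set O := integralClosure ℤ K with hO
  have hinj : Function.Injective (algebraMap O K) := Subtype.val_injective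
  have hlift : p ∈ Polynomial.lifts (algebraMap O K) := by
    rw [Polynomial.lifts_iff_coeff_lifts]
    intro i
    exact ⟨⟨p.coeff i, hi i⟩, rfl⟩
  obtain ⟨p', hp', -, hp'm⟩ := Polynomial.lifts_and_degree_eq_and_monic hlift hp
  obtain ⟨P', rfl⟩ := hP
  rw [← hp', Polynomial.map_dvd_map _ hinj hp'm] at h
  obtain ⟨r, hr⟩ := h
  refine ⟨r.map (algebraMap O K), fun i => ?_, ?_⟩
  · rw [coeff_map]
    exact (r.coeff i).2
  · rw [← hp', hr, Polynomial.map_mul]

theorem val_eval_le {K L : Type*} [Field K] [Field L] (f : K →+* L) (v : Valuation L ℤᵐ⁰)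
    {p : K[X]} (hi : ∀ i, IsIntegral ℤ (p.coeff i)) {Y : L} (hY : v Y ≤ 1) :
    v (p.eval₂ f Y) ≤ 1 := by
  rw [Polynomial.eval₂_eq_sum_range]
  refine Valuation.map_sum_le v fun i _ => ?_
  rw [map_mul, map_pow]
  exact mul_le_one' (val_le_one_of_integral v (map_isIntegral_int _ (hi i)))
    (pow_le_one' hY i)

/-- A monic polynomial in one variable with integral coefficients that divides a power of
`X^N - 1` is tempered. -/
theorem tempered_cyc.{u, v} {K : Type u} [Field K] {p : K[X]} (hp : p.Monic)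
    (hi : ∀ i, IsIntegral ℤ (p.coeff i)) {N M : ℕ} (hN : 0 < N) (h : p ∣ (X ^ N - 1) ^ M) :
    Tempered.{u, v} (oneVar p) := by
  classical
  obtain ⟨r, hr, hpr⟩ := exists_quotient hp hi ⟨(X ^ N - 1) ^ M, by simp⟩ h
  intro L _ f v y hy
  obtain ⟨t, ht, hlt⟩ := hy
  set Y : L := (y 0 : L) with hY
  have hY0 : Y ≠ 0 := (y 0).ne_zero
  have heval : MvPolynomial.eval₂ f (fun l => (y l : L)) (oneVar p) = p.eval₂ f Y := by
    unfold oneVar
    have h1 := Polynomial.hom_eval₂ p (MvPolynomial.C : K →+* MvPolynomial (Fin 1) K)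
      (MvPolynomial.eval₂Hom f (fun l => (y l : L))) (MvPolynomial.X 0)
    have h2 : (MvPolynomial.eval₂Hom f (fun l => (y l : L))).comp
        (MvPolynomial.C : K →+* MvPolynomial (Fin 1) K) = f := by
      ext x
      simp
    rw [h2, MvPolynomial.eval₂Hom_X'] at h1
    exact h1
  have ht0 : t 0 ≤ p.natDegree := by
    unfold oneVar at ht
    rw [Polynomial.eval₂_eq_sum_range] at ht
    obtain ⟨i, hi', hit⟩ := Finset.mem_biUnion.1 (MvPolynomial.support_sum ht)
    rw [MvPolynomial.X_pow_eq_monomial, MvPolynomial.C_mul_monomial] at hit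
    have h1 := Finset.mem_singleton.1 (MvPolynomial.support_monomial_subset hit)
    rw [h1, Finsupp.single_eq_same]
    exact Nat.lt_succ_iff.1 (Finset.mem_range.1 hi')
  have hprod : v (∏ l, (y l : L) ^ t l) = v Y ^ t 0 := by
    rw [Fin.prod_univ_one, map_pow]
  rw [heval, hprod] at hlt
  have hco : ∀ i, v (f (p.coeff i)) ≤ 1 := fun i =>
    val_le_one_of_integral v (map_isIntegral_int _ (hi i))
  rcases lt_trichotomy (v Y) 1 with hv | hv | hv
  · -- `Y` is small
    exfalso
    have h0 : v (f (p.coeff 0)) = 1 := by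
      have h1 := congrArg (fun P : K[X] => v (f (P.coeff 0))) hpr
      simp only [Polynomial.mul_coeff_zero, map_mul] at h1
      have h2 : v (f (((X ^ N - 1 : K[X]) ^ M).coeff 0)) = 1 := by
        rw [Polynomial.coeff_zero_eq_eval_zero]
        simp [hN.ne']
      rw [h2] at h1
      refine le_antisymm (hco 0) ?_
      rw [h1]
      calc v (f (p.coeff 0)) * v (f (r.coeff 0)) ≤ v (f (p.coeff 0)) * 1 :=
            mul_le_mul' le_rfl (val_le_one_of_integral v (map_isIntegral_int _ (hr 0)))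
        _ = _ := mul_one _
    have h3 : v (p.eval₂ f Y) = 1 := by
      rw [Polynomial.eval₂_eq_sum_range, Finset.sum_range_succ', pow_zero, mul_one]
      rw [Valuation.map_add_eq_of_lt_right v, h0]
      rw [h0]
      refine Valuation.map_sum_lt v one_ne_zero fun i _ => ?_
      rw [map_mul, map_pow]
      calc v (f (p.coeff (i + 1))) * v Y ^ (i + 1) ≤ 1 * v Y ^ (i + 1) :=
            mul_le_mul' (hco _) le_rfl
        _ = v Y ^ (i + 1) := one_mul _
        _ < 1 := pow_lt_one₀ zero_le' hv (Nat.succ_ne_zero i)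
    rw [h3] at hlt
    exact absurd hlt (not_lt.2 (pow_le_one' hv.le _))
  · -- `Y` is a unit
    rw [hv, one_pow] at hlt
    have h1 := congrArg (fun P : K[X] => v (P.eval₂ f Y)) hpr
    simp only [Polynomial.eval₂_mul, map_mul] at h1
    rw [Polynomial.eval₂_pow, Polynomial.eval₂_sub, Polynomial.eval₂_pow, Polynomial.eval₂_X,
      Polynomial.eval₂_one, map_pow] at h1
    have h2 : v (Y ^ N - 1) ^ M < 1 := by
      rw [h1]
      calc v (p.eval₂ f Y) * v (r.eval₂ f Y) ≤ v (p.eval₂ f Y) * 1 :=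
            mul_le_mul' le_rfl (val_eval_le f v hr hv.le)
        _ = _ := mul_one _
        _ < 1 := hlt
    have h3 : v (Y ^ N - 1) < 1 := by
      by_contra hcon
      exact absurd h2 (not_lt.2 (one_le_pow_of_one_le' (not_lt.1 hcon) M))
    exact mem_onePart_of_pow v 0 y hN.ne' h3
  · -- `Y` is large
    exfalso
    have h3 : v (p.eval₂ f Y) = v Y ^ p.natDegree := by
      rw [Polynomial.eval₂_eq_sum_range, Finset.sum_range_succ, hp.coeff_natDegree, map_one,
        one_mul]
      rw [Valuation.map_add_eq_of_lt_right v, map_pow]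
      rw [map_pow]
      refine Valuation.map_sum_lt v (pow_ne_zero _ ((Valuation.ne_zero_iff v).2 hY0))
        fun i hi' => ?_
      rw [map_mul, map_pow]
      calc v (f (p.coeff i)) * v Y ^ i ≤ 1 * v Y ^ i := mul_le_mul' (hco _) le_rfl
        _ = v Y ^ i := one_mul _
        _ < v Y ^ p.natDegree := pow_lt_pow_right₀ hv (Finset.mem_range.1 hi')
    rw [h3] at hlt
    exact absurd hlt (not_lt.2 (pow_le_pow_right₀ hv.le ht0))

end cyc

section two

variable {L : Type*} [Field L]

theorem sl (x x' y : Lˣ) : symb ![x * x', y] = symb ![x, y] + symb ![x', y] := by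
  have h := symb_update_mul ![x, y] 0 x x'
  have e : ∀ z, Function.update ![x, y] 0 z = ![z, y] := by
    intro z
    funext i
    fin_cases i <;> simp
  rwa [e, e, e] at h

theorem sr (x y y' : Lˣ) : symb ![x, y * y'] = symb ![x, y] + symb ![x, y'] := by
  have h := symb_update_mul ![x, y] 1 y y'
  have e : ∀ z, Function.update ![x, y] 1 z = ![x, z] := by
    intro z
    funext i
    fin_cases i <;> simp
  rwa [e, e, e] at h

theorem sli (x y : Lˣ) : symb ![x⁻¹, y] = - symb ![x, y] := by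
  have h := symb_upd_inv ![x, y] 0 x
  have e : ∀ z, Function.update ![x, y] 0 z = ![z, y] := by
    intro z
    funext i
    fin_cases i <;> simp
  rwa [e, e] at h

theorem sri (x y : Lˣ) : symb ![x, y⁻¹] = - symb ![x, y] := by
  have h := symb_upd_inv ![x, y] 1 y
  have e : ∀ z, Function.update ![x, y] 1 z = ![x, z] := by
    intro z
    funext i
    fin_cases i <;> simp
  rwa [e, e] at h

theorem sln (x y : Lˣ) : symb ![-x, y] = symb ![x, y] := by
  have h := symb_upd_neg ![x, y] 0 x
  have e : ∀ z, Function.update ![x, y] 0 z = ![z, y] := by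
    intro z
    funext i
    fin_cases i <;> simp
  rwa [e, e] at h

theorem srn (x y : Lˣ) : symb ![x, -y] = symb ![x, y] := by
  have h := symb_upd_neg ![x, y] 1 y
  have e : ∀ z, Function.update ![x, y] 1 z = ![x, z] := by
    intro z
    funext i
    fin_cases i <;> simp
  rwa [e, e] at h

theorem sxx (x : Lˣ) : symb ![x, x] = 0 :=
  symb_self _ (i := 0) (j := 1) (by decide) rfl

theorem sst (x y : Lˣ) (h : (x : L) + y = 1) : symb ![x, y] = 0 :=
  symb_eq_zero _ ⟨0, 1, by decide, h⟩

variable (v : Valuation L ℤᵐ⁰)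

theorem one_l (x y : Lˣ) (h : v ((x : L) - 1) < 1) : symb ![x, y] ∈ onePart v 2 :=
  Submodule.subset_span ⟨_, 0, h, rfl⟩

theorem one_r (x y : Lˣ) (h : v ((y : L) - 1) < 1) : symb ![x, y] ∈ onePart v 2 :=
  Submodule.subset_span ⟨_, 1, h, rfl⟩

/-- `a = - b w` with a one-unit `w`. -/
theorem pair_opp (a b : Lˣ) (h : v (-(a : L) / b - 1) < 1) : symb ![a, b] ∈ onePart v 2 := by
  have e : a = -b * (-a / b) := by
    rw [neg_mul_comm, neg_div', neg_neg, mul_div_cancel]
  rw [e, sl, sln, sxx, zero_add]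
  exact one_l v _ _ (by simpa using h)

theorem nodal_units {a b : Lˣ} (ha : v (a : L) = 1) (hb : v (b : L) = 1)
    (h : v ((a : L) + (a : L)⁻¹ + (b + (b : L)⁻¹) - 4) < 1) : symb ![a, b] ∈ onePart v 2 := by
  by_cases ha1 : v ((a : L) - 1) < 1
  · exact one_l v a b ha1
  by_cases hb1 : v ((b : L) - 1) < 1
  · exact one_r v a b hb1
  have ha1' : v ((a : L) - 1) = 1 := le_antisymm ((v.map_sub _ _).trans (by rw [ha, map_one,
    max_self])) (not_lt.1 ha1)
  have hb1' : v ((b : L) - 1) = 1 := le_antisymm ((v.map_sub _ _).trans (by rw [hb, map_one,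
    max_self])) (not_lt.1 hb1)
  have ha0 : (a : L) ≠ 0 := a.ne_zero
  have hb0 : (b : L) ≠ 0 := b.ne_zero
  have ha10 : (a : L) - 1 ≠ 0 := by
    intro h0
    rw [h0, map_zero] at ha1'
    exact zero_ne_one ha1'
  have hb10 : (b : L) - 1 ≠ 0 := by
    intro h0
    rw [h0, map_zero] at hb1'
    exact zero_ne_one hb1'
  set r : Lˣ := Units.mk0 (((a : L) - 1) / (b - 1)) (div_ne_zero ha10 hb10) with hr
  have hrc : (r : L) = ((a : L) - 1) / (b - 1) := rfl
  have hvr : v (r : L) = 1 := by rw [hrc, map_div₀, ha1', hb1', div_one]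
  have hr0 : (r : L) ≠ 0 := r.ne_zero
  set w : Lˣ := -a / (r ^ 2 * b) with hw
  have hwc : (w : L) = -a / ((r : L) ^ 2 * b) := by
    rw [hw, Units.val_div_eq_div_val, Units.val_neg, Units.val_mul, Units.val_pow_eq_pow_val]
  -- `w` is a one-unit
  have hw1 : v ((w : L) - 1) < 1 := by
    have e : (w : L) - 1 = -(((a : L) + (a : L)⁻¹ + (b + (b : L)⁻¹) - 4) *
        (a / ((r : L) ^ 2 * (b - 1) ^ 2))) := by
      rw [hwc, hrc]
      field_simp
      ring
    rw [e, Valuation.map_neg, map_mul, map_div₀, map_mul, map_pow, map_pow, ha, hvr, hb1',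
      one_pow, mul_one, div_one, mul_one]
    exact h
  have hab : a = -(r ^ 2 * b) * w := by
    rw [hw, neg_mul, mul_div_cancel, neg_neg]
  have hrel : (b : L) * r * (1 + r * w) = r - 1 := by
    have h1 : (a : L) = -((r : L) ^ 2 * b) * w := by
      have := congrArg (fun z : Lˣ => (z : L)) hab
      simpa using this
    have h2 : (a : L) - 1 = r * (b - 1) := by
      rw [hrc, div_mul_cancel₀ _ hb10]
    linear_combination h1 - h2
  have hmain : symb ![a, b] = symb ![r ^ 2, b] + symb ![w, b] := by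
    conv_lhs => rw [hab]
    rw [sl, sln, sl, sxx, add_zero]
  have hr2 : symb ![r ^ 2, b] = symb ![r, b] + symb ![r, b] := by
    rw [pow_two, sl]
  by_cases hr1 : v ((r : L) - 1) < 1
  · -- `r` is a one-unit
    rw [hmain, hr2]
    exact Submodule.add_mem _ (Submodule.add_mem _ (one_l v r b hr1) (one_l v r b hr1))
      (one_l v w b hw1)
  have hr1' : v ((r : L) - 1) = 1 := le_antisymm ((v.map_sub _ _).trans (by rw [hvr, map_one,
    max_self])) (not_lt.1 hr1)
  have hr10 : (1 : L) - r ≠ 0 := by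
    intro h0
    have h1 : (r : L) - 1 = 0 := by linear_combination -h0
    rw [h1, map_zero] at hr1'
    exact zero_ne_one hr1'
  have hs0 : (1 : L) + r * w ≠ 0 := by
    intro h0
    rw [h0, mul_zero] at hrel
    apply hr10
    linear_combination hrel
  set s : Lˣ := Units.mk0 (1 + (r : L) * w) hs0 with hs
  set u : Lˣ := Units.mk0 (1 - (r : L)) hr10 with hu
  have hsc : (s : L) = 1 + (r : L) * w := rfl
  have huc : (u : L) = 1 - r := rfl
  have hb : b = -u * (r⁻¹ * s⁻¹) := by
    apply Units.ext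
    rw [Units.val_mul, Units.val_neg, Units.val_mul, Units.val_inv_eq_inv_val,
      Units.val_inv_eq_inv_val, hsc, huc]
    have h3 : (b : L) * r * (1 + r * w) = r - 1 := hrel
    field_simp
    linear_combination h3
  have hrb : symb ![r, b] = - symb ![r, s] := by
    have h1 : symb ![r, -u] = 0 := by
      rw [srn]
      exact sst r u (by rw [huc]; ring)
    conv_lhs => rw [hb]
    rw [sr, sr, sri, sri, h1, sxx]
    simp
  have hrs : symb ![r, s] = - symb ![w, s] := by
    have h1 : symb ![r * w, s] = 0 := by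
      rw [← sln]
      exact sst _ s (by
        rw [hsc, Units.val_neg, Units.val_mul]
        ring)
    rw [sl] at h1
    exact eq_neg_of_add_eq_zero_left h1
  have hmem : symb ![r, b] ∈ onePart v 2 := by
    rw [hrb, hrs, neg_neg]
    exact one_l v w s hw1
  rw [hmain, hr2]
  exact Submodule.add_mem _ (Submodule.add_mem _ hmem hmem) (one_l v w b hw1)

theorem v4 : v (4 : L) ≤ 1 := by
  have h : IsIntegral ℤ (4 : L) := by
    have := isIntegral_algebraMap (R := ℤ) (A := L) (x := 4)
    simpa using this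
  exact val_le_one_of_integral v h

/-- The case of nonintegral `a`, `b`. -/
theorem nodal_aux {a b : Lˣ} (ha : 1 ≤ v (a : L)) (hb : 1 ≤ v (b : L))
    (h : v ((a : L) + (a : L)⁻¹ + (b + (b : L)⁻¹) - 4) < max (v (a : L)) (v (b : L))) :
    symb ![a, b] ∈ onePart v 2 := by
  have hai : v ((a : L)⁻¹) ≤ 1 := by
    rw [map_inv₀]
    exact inv_le_one_of_one_le₀ ha
  have hbi : v ((b : L)⁻¹) ≤ 1 := by
    rw [map_inv₀]
    exact inv_le_one_of_one_le₀ hb
  have hrest : v ((a : L)⁻¹ + (b : L)⁻¹ - 4) ≤ 1 :=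
    (v.map_sub _ _).trans (max_le ((v.map_add _ _).trans (max_le hai hbi)) (v4 v))
  have e : (a : L) + (a : L)⁻¹ + (b + (b : L)⁻¹) - 4 =
      (a + b) + ((a : L)⁻¹ + (b : L)⁻¹ - 4) := by ring
  rcases lt_trichotomy (v (a : L)) (v (b : L)) with hab | hab | hab
  · exfalso
    have h1 : v ((a : L) + b) = v (b : L) := Valuation.map_add_eq_of_lt_right v hab
    rw [e, Valuation.map_add_eq_of_lt_left v (by rw [h1]; exact hrest.trans_lt (ha.trans_lt hab)),
      h1, max_eq_right hab.le] at h
    exact lt_irrefl _ h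
  · rw [hab, max_self] at h
    rcases eq_or_lt_of_le hb with hb1 | hb1
    · exact nodal_units v (by rw [hab, ← hb1]) hb1.symm (by rwa [← hb1] at h)
    · refine pair_opp v a b ?_
      have h1 : v ((a : L) + b) < v (b : L) := by
        have e2 : (a : L) + b = ((a : L) + (a : L)⁻¹ + (b + (b : L)⁻¹) - 4) -
            ((a : L)⁻¹ + (b : L)⁻¹ - 4) := by ring
        rw [e2]
        exact (v.map_sub _ _).trans_lt (max_lt h (hrest.trans_lt hb1))
      have e3 : -(a : L) / b - 1 = -((a + b) / b) := by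
        have := b.ne_zero
        field_simp
        ring
      rw [e3, Valuation.map_neg, map_div₀, div_lt_one₀ (zero_lt_one.trans hb1)]
      exact h1
  · exfalso
    have h1 : v ((a : L) + b) = v (a : L) := Valuation.map_add_eq_of_lt_left v hab
    rw [e, Valuation.map_add_eq_of_lt_left v (by rw [h1]; exact hrest.trans_lt (hb.trans_lt hab)),
      h1, max_eq_left hab.le] at h
    exact lt_irrefl _ h

/-- `a + 1/a + b + 1/b - 4` is of smaller order than the largest summand. -/
theorem nodal_all {a b : Lˣ}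
    (h : v ((a : L) + (a : L)⁻¹ + (b + (b : L)⁻¹) - 4) <
      max (max (v (a : L)) (v (a : L)⁻¹)) (max (v (b : L)) (v (b : L)⁻¹))) :
    symb ![a, b] ∈ onePart v 2 := by
  have hinv : ∀ x : Lˣ, v (x : L) ≤ 1 → 1 ≤ v ((x⁻¹ : Lˣ) : L) := by
    intro x hx
    rw [Units.val_inv_eq_inv_val, map_inv₀]
    exact (one_le_inv₀ ((Valuation.pos_iff v).2 x.ne_zero)).2 hx
  have hmax : ∀ x : Lˣ, 1 ≤ v (x : L) → max (v (x : L)) (v ((x : L)⁻¹)) = v (x : L) := by
    intro x hx
    refine max_eq_left ?_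
    rw [map_inv₀]
    exact (inv_le_one_of_one_le₀ hx).trans hx
  have hmax' : ∀ x : Lˣ, v (x : L) ≤ 1 → max (v (x : L)) (v ((x : L)⁻¹)) =
      v ((x⁻¹ : Lˣ) : L) := by
    intro x hx
    have h1 := hinv x hx
    rw [Units.val_inv_eq_inv_val] at h1 ⊢
    exact max_eq_right (hx.trans h1)
  rcases le_total 1 (v (a : L)) with ha | ha
  · rcases le_total 1 (v (b : L)) with hb | hb
    · rw [hmax a ha, hmax b hb] at h
      exact nodal_aux v ha hb h
    · rw [hmax a ha, hmax' b hb] at h
      have h1 := nodal_aux v (a := a) (b := b⁻¹) ha (hinv b hb) (by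
        convert h using 2
        rw [Units.val_inv_eq_inv_val, inv_inv]
        ring)
      rw [sri] at h1
      exact (Submodule.neg_mem_iff _).1 h1
  · rcases le_total 1 (v (b : L)) with hb | hb
    · rw [hmax' a ha, hmax b hb] at h
      have h1 := nodal_aux v (a := a⁻¹) (b := b) (hinv a ha) hb (by
        convert h using 2
        rw [Units.val_inv_eq_inv_val, inv_inv]
        ring)
      rw [sli] at h1
      exact (Submodule.neg_mem_iff _).1 h1
    · rw [hmax' a ha, hmax' b hb] at h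
      have h1 := nodal_aux v (a := a⁻¹) (b := b⁻¹) (hinv a ha) (hinv b hb) (by
        convert h using 2
        rw [Units.val_inv_eq_inv_val, inv_inv, Units.val_inv_eq_inv_val, inv_inv]
        ring)
      rw [sli, sri, neg_neg] at h1
      exact h1

end two

section nodal

open MvPolynomial

/-- The polynomial `y_0 y_1 (y_0 + 1/y_0 + y_1 + 1/y_1 - 4 e)`. -/
noncomputable def nodalPoly (K : Type*) [Field K] (e : K) : MvPolynomial (Fin 2) K :=
  X 0 ^ 2 * X 1 + X 1 + X 0 * X 1 ^ 2 + X 0 - C (4 * e) * (X 0 * X 1)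

/-- The polynomials `y_0 y_1 (y_0 + 1/y_0 + y_1 + 1/y_1 ∓ 4)` are tempered. -/
theorem tempered_nodal.{u, v} {K : Type u} [Field K] {e : K} (he : e ^ 2 = 1) :
    Tempered.{u, v} (nodalPoly K e) := by
  classical
  intro L _ f v y h
  obtain ⟨t, ht, hlt⟩ := h
  have hee : f e ^ 2 = 1 := by rw [← map_pow, he, map_one]
  have he0 : f e ≠ 0 := by
    intro h0
    rw [h0] at hee
    norm_num at hee
  set ε : Lˣ := Units.mk0 (f e) he0 with hε
  have hε2 : ε ^ 2 = 1 := by
    apply Units.ext
    rw [Units.val_pow_eq_pow_val, hε, Units.val_mk0, hee, Units.val_one]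
  set a : Lˣ := ε * y 0 with ha
  set b : Lˣ := ε * y 1 with hb
  have hve : v (f e) = 1 := val_root v (by norm_num) hee
  have hva : v (a : L) = v (y 0 : L) := by
    rw [ha, Units.val_mul, map_mul, hε, Units.val_mk0, hve, one_mul]
  have hvb : v (b : L) = v (y 1 : L) := by
    rw [hb, Units.val_mul, map_mul, hε, Units.val_mk0, hve, one_mul]
  have hsymb : symb y = symb ![a, b] := by
    have h1 := symb_root y (fun _ => ε) (fun _ => ⟨2, by norm_num, hε2⟩)
    rw [← h1]
    congr 1
    funext i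
    fin_cases i <;> rfl
  have hy0 : (y 0 : L) ≠ 0 := (y 0).ne_zero
  have hy1 : (y 1 : L) ≠ 0 := (y 1).ne_zero
  have heval : eval₂ f (fun l => (y l : L)) (nodalPoly K e) =
      f e * (y 0 * y 1) * ((a : L) + (a : L)⁻¹ + (b + (b : L)⁻¹) - 4) := by
    unfold nodalPoly
    have hac : (a : L) = f e * y 0 := by rw [ha, Units.val_mul, hε, Units.val_mk0]
    have hbc : (b : L) = f e * y 1 := by rw [hb, Units.val_mul, hε, Units.val_mk0]
    have hei : (f e)⁻¹ = f e := by
      rw [inv_eq_iff_eq_inv, eq_comm]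
      exact inv_eq_of_mul_eq_one_left (by rw [← pow_two]; exact hee)
    rw [hac, hbc, mul_inv, mul_inv, hei]
    simp only [MvPolynomial.eval₂_sub, MvPolynomial.eval₂_add, MvPolynomial.eval₂_mul,
      MvPolynomial.eval₂_pow, MvPolynomial.eval₂_X, MvPolynomial.eval₂_C]
    rw [map_mul, map_ofNat]
    field_simp
    linear_combination (-((y 0 : L) ^ 2 * y 1) - (y 1 : L) - (y 0 : L) * y 1 ^ 2 - (y 0 : L)) * hee
  rw [hsymb]
  refine nodal_all v ?_
  have hvp : v ((y 0 : L) * y 1) ≠ 0 := (Valuation.ne_zero_iff v).2 (mul_ne_zero hy0 hy1)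
  have hvp0 : 0 < v ((y 0 : L) * y 1) := zero_lt_iff.2 hvp
  rw [heval, map_mul, map_mul, hve, one_mul] at hlt
  -- the monomials
  have hmon : v (∏ l, (y l : L) ^ t l) ≤ v ((y 0 : L) * y 1) *
      max (max (v (a : L)) (v (a : L)⁻¹)) (max (v (b : L)) (v (b : L)⁻¹)) := by
    have hinv : ∀ x : Lˣ, v ((x : L)⁻¹) = (v (x : L))⁻¹ := fun x => map_inv₀ v _
    have h1max : (1 : ℤᵐ⁰) ≤ max (max (v (a : L)) (v (a : L)⁻¹))
        (max (v (b : L)) (v (b : L)⁻¹)) := by
      rcases le_total 1 (v (a : L)) with h1 | h1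
      · exact h1.trans ((le_max_left _ _).trans (le_max_left _ _))
      · refine le_trans ?_ ((le_max_right _ _).trans (le_max_left _ _))
        rw [hinv]
        exact (one_le_inv₀ ((Valuation.pos_iff v).2 a.ne_zero)).2 h1
    have hexp : ∏ l, (y l : L) ^ t l = (y 0 : L) ^ t 0 * (y 1 : L) ^ t 1 := Fin.prod_univ_two _
    have hsupp : (t 0 = 2 ∧ t 1 = 1) ∨ (t 0 = 0 ∧ t 1 = 1) ∨ (t 0 = 1 ∧ t 1 = 2) ∨
        (t 0 = 1 ∧ t 1 = 0) ∨ (t 0 = 1 ∧ t 1 = 1) := by
      have hm : ∀ (i j : ℕ) (c : K), C c * (X 0 ^ i * X 1 ^ j : MvPolynomial (Fin 2) K) =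
          monomial (Finsupp.single 0 i + Finsupp.single 1 j) c := by
        intro i j c
        rw [MvPolynomial.X_pow_eq_monomial, MvPolynomial.X_pow_eq_monomial,
          MvPolynomial.monomial_mul, MvPolynomial.C_mul_monomial, one_mul, mul_one]
      have he1 : nodalPoly K e = C 1 * (X 0 ^ 2 * X 1 ^ 1) + C 1 * (X 0 ^ 0 * X 1 ^ 1) +
          C 1 * (X 0 ^ 1 * X 1 ^ 2) + C 1 * (X 0 ^ 1 * X 1 ^ 0) -
          C (4 * e) * (X 0 ^ 1 * X 1 ^ 1) := by
        unfold nodalPoly
        simp only [map_one, one_mul, pow_one, pow_zero, mul_one]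
      rw [he1] at ht
      simp only [hm] at ht
      have hs : ∀ i j c, t ∈ (monomial (Finsupp.single 0 i + Finsupp.single 1 j) c :
          MvPolynomial (Fin 2) K).support → t 0 = i ∧ t 1 = j := by
        intro i j c h1
        have h2 := Finset.mem_singleton.1 (MvPolynomial.support_monomial_subset h1)
        rw [h2]
        simp
      rcases Finset.mem_union.1 (MvPolynomial.support_sub _ _ _ ht) with h1 | h1
      · rcases Finset.mem_union.1 (MvPolynomial.support_add h1) with h2 | h2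
        · rcases Finset.mem_union.1 (MvPolynomial.support_add h2) with h3 | h3
          · rcases Finset.mem_union.1 (MvPolynomial.support_add h3) with h4 | h4
            · exact Or.inl (hs _ _ _ h4)
            · exact Or.inr (Or.inl (hs _ _ _ h4))
          · exact Or.inr (Or.inr (Or.inl (hs _ _ _ h3)))
        · exact Or.inr (Or.inr (Or.inr (Or.inl (hs _ _ _ h2))))
      · exact Or.inr (Or.inr (Or.inr (Or.inr (hs _ _ _ h1))))
    have hvy0 : v (y 0 : L) ≠ 0 := (Valuation.ne_zero_iff v).2 hy0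
    have hvy1 : v (y 1 : L) ≠ 0 := (Valuation.ne_zero_iff v).2 hy1
    rw [hexp, map_mul, map_pow, map_pow, map_mul]
    rcases hsupp with ⟨h1, h2⟩ | ⟨h1, h2⟩ | ⟨h1, h2⟩ | ⟨h1, h2⟩ | ⟨h1, h2⟩
    · rw [h1, h2]
      calc v (y 0 : L) ^ 2 * v (y 1 : L) ^ 1 = v (y 0 : L) * v (y 1 : L) * v (a : L) := by
            rw [hva, pow_two, pow_one]
            exact mul_right_comm _ _ _
        _ ≤ _ := mul_le_mul' le_rfl ((le_max_left _ _).trans (le_max_left _ _))
    · rw [h1, h2]
      calc v (y 0 : L) ^ 0 * v (y 1 : L) ^ 1 = v (y 0 : L) * v (y 1 : L) * v ((a : L)⁻¹) := by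
            rw [hinv, hva, pow_zero, one_mul, pow_one, mul_right_comm, mul_inv_cancel₀ hvy0,
              one_mul]
        _ ≤ _ := mul_le_mul' le_rfl ((le_max_right _ _).trans (le_max_left _ _))
    · rw [h1, h2]
      calc v (y 0 : L) ^ 1 * v (y 1 : L) ^ 2 = v (y 0 : L) * v (y 1 : L) * v (b : L) := by
            rw [hvb, pow_two, pow_one, mul_assoc]
        _ ≤ _ := mul_le_mul' le_rfl ((le_max_left _ _).trans (le_max_right _ _))
    · rw [h1, h2]
      calc v (y 0 : L) ^ 1 * v (y 1 : L) ^ 0 = v (y 0 : L) * v (y 1 : L) * v ((b : L)⁻¹) := by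
            rw [hinv, hvb, pow_zero, mul_one, pow_one, mul_assoc, mul_inv_cancel₀ hvy1, mul_one]
        _ ≤ _ := mul_le_mul' le_rfl ((le_max_right _ _).trans (le_max_right _ _))
    · rw [h1, h2, pow_one, pow_one]
      calc v (y 0 : L) * v (y 1 : L) = v (y 0 : L) * v (y 1 : L) * 1 := (mul_one _).symm
        _ ≤ _ := mul_le_mul' le_rfl h1max
  exact lt_of_mul_lt_mul_left (hlt.trans_le hmon) hvp0.le

end nodal

end Pool.Agent.K7.H52.TF
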