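import Pool.Agent.K7.H52.TF.Def
import Pool.Agent.Y797.TW.Unr
import Pool.Agent.TH690.SF.Milnor
set_option autoImplicit false

/-!
Tempered polynomials, and the symbols of the fibrations over towers of graphs are unramified at all
discrete valuations.
-/

namespace Pool.Agent.K7.H52.TF

open Pool.Agent.TH826.MK

open Pool.Agent.TH826.EF (onePart onePart_le)

open Pool.Agent.TH690.SF (mem_onePart_of_comp)

open Pool.Agent.Y797.TW (val_le_one)

open MvPolynomial

open scoped WithZero

/-- A polynomial `ψ(y_0, ..., y_{q-1})` is tempered, if the symbol `{y_0, ..., y_{q-1}}` of nonzero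
elements of a field `L` over `K` with a discrete valuation `v` is a combination of symbols with a
one-unit among their entries, whenever `ψ(y)` is of smaller absolute value than some of the monomials
of `ψ`. -/
def Tempered.{u, v} {K : Type u} [Field K] {q : ℕ} (psi : MvPolynomial (Fin q) K) : Prop :=
  ∀ (L : Type v) [Field L] (f : K →+* L) (v : Valuation L ℤᵐ⁰) (y : Fin q → Lˣ),
    (∃ s ∈ psi.support, v (eval₂ f (fun l => (y l : L)) psi) < v (∏ l, (y l : L) ^ s l)) →
      symb y ∈ onePart v q

section val

variable {K L : Type*} [Field K] [Field L] {ι : Type*} (F : MvPolynomial ι K →+* L)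
  (v : Valuation L ℤᵐ⁰)

/-- The value of a polynomial with integral coefficients is bounded by the value of the part of one
of its monomials, if the other variables are integral. -/
theorem exists_mono {p : MvPolynomial ι K} (hp : ∀ m, IsIntegral ℤ (p.coeff m)) (hp0 : p ≠ 0)
    (w : (ι →₀ ℕ) → ℤᵐ⁰) (hw : ∀ m ∈ p.support, v (F (monomial m 1)) ≤ w m) :
    ∃ m ∈ p.support, v (F p) ≤ w m := by
  classical
  obtain ⟨m0, hm0, hmax⟩ := p.support.exists_max_image w (MvPolynomial.support_nonempty.2 hp0)
  refine ⟨m0, hm0, ?_⟩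
  conv_lhs => rw [p.as_sum]
  rw [map_sum]
  refine Valuation.map_sum_le _ fun m hm => ?_
  have e : monomial m (p.coeff m) = C (p.coeff m) * monomial m 1 := by
    rw [MvPolynomial.C_mul_monomial, mul_one]
  rw [e, map_mul, map_mul]
  have h1 : v (F (C (p.coeff m))) ≤ 1 := val_le_one_of_integral v
      (map_isIntegral_int (F.comp (C : K →+* MvPolynomial ι K)) (hp m))
  calc v (F (C (p.coeff m))) * v (F (monomial m 1)) ≤ 1 * w m := mul_le_mul' h1 (hw m hm)
    _ = w m := one_mul _
    _ ≤ w m0 := hmax m hm

end val

section main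

variable {K : Type*} [Field K] {q n : ℕ} {A : Fib K q n} {lam : K} {L : Type*} [Field L]
  (f : A.ORing lam →+* L)

theorem map_ent_y (k : ∀ j, Fin (A.r j)) (l : Fin q) :
    ((Units.map (f : A.ORing lam →* L) (A.ent lam k (yi l)) : Lˣ) : L) =
      f (A.mkO lam (X (yi l))) := by
  unfold Fib.ent
  rw [cases_yi]
  rfl

theorem map_ent_x (k : ∀ j, Fin (A.r j)) (j : Fin (n + 1)) :
    ((Units.map (f : A.ORing lam →* L) (A.ent lam k (xi j)) : Lˣ) : L) =
      f (A.mkO lam (A.fac j (k j).succ)) / f (A.mkO lam (A.fac j 0)) := by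
  unfold Fib.ent
  rw [cases_xi, map_div, Units.val_div_eq_div_val]
  rfl

theorem fac_ne_zero (j : Fin (n + 1)) (i : Fin (A.r j + 1)) : f (A.mkO lam (A.fac j i)) ≠ 0 :=
  ((A.isUnit_fac lam j i).map f).ne_zero

theorem y_ne_zero (l : Fin q) : f (A.mkO lam (X (yi l))) ≠ 0 :=
  ((A.isUnit_y lam l).map f).ne_zero

theorem hom_psi' (F : MvPolynomial (Fin (q + n + 1)) K →+* L) :
    F A.psi' = eval₂ (F.comp C) (fun l => F (X (yi l))) A.psi := by
  unfold Fib.psi'
  have h1 : F (rename yi A.psi) = (F.comp (rename yi : _ →ₐ[K] _).toRingHom) A.psi := rfl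
  rw [h1]
  have h2 : (F.comp (rename (R := K) (yi (q := q) (n := n)) : _ →ₐ[K] _).toRingHom) =
      eval₂Hom (F.comp C) (fun l => F (X (yi l))) := by
    apply MvPolynomial.ringHom_ext
    · intro r
      simp
    · intro i
      simp
  rw [h2]
  rfl

theorem symb_mem_unitPart (hG : A.Graphs) (hI : A.Integral) (hN : A.Interior)
    (hT : ∀ (f : K →+* L) (v : Valuation L ℤᵐ⁰) (y : Fin q → Lˣ),
      (∃ s ∈ A.psi.support, v (eval₂ f (fun l => (y l : L)) A.psi) < v (∏ l, (y l : L) ^ s l)) →
        symb y ∈ onePart v q)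
    (hlam : IsIntegral ℤ lam)
    (v : Valuation L ℤᵐ⁰) (k : ∀ j, Fin (A.r j)) :
    symb (fun j => Units.map (f : A.ORing lam →* L) (A.ent lam k j)) ∈
      unitPart v (q + n + 1) := by
  classical
  set F : MvPolynomial (Fin (q + n + 1)) K →+* L := f.comp (A.mkO lam) with hF
  set F' : MvPolynomial (Fin (n + 1)) K →+* L :=
    F.comp (rename xi : MvPolynomial (Fin (n + 1)) K →ₐ[K] _).toRingHom with hF'
  have hF'X : ∀ l, F' (X l) = F (X (xi l)) := fun l => by
    rw [hF', RingHom.comp_apply]
    congr 1
    exact MvPolynomial.rename_X _ _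
  have e1 : ∀ j i, F (A.fac j i) = F (X (xi j)) - F' (A.phi j i) := fun j i => by
    unfold Fib.fac
    rw [map_sub]
    rfl
  by_cases hB : ∃ j, 1 < v (F (X (xi j)))
  · -- the last one
    have hne : (Finset.univ.filter fun j : Fin (n + 1) => 1 < v (F (X (xi j)))).Nonempty := by
      obtain ⟨j, hj⟩ := hB
      exact ⟨j, Finset.mem_filter.2 ⟨Finset.mem_univ _, hj⟩⟩
    set j := (Finset.univ.filter fun j : Fin (n + 1) => 1 < v (F (X (xi j)))).max' hne with hjdef
    have hj : 1 < v (F (X (xi j))) := (Finset.mem_filter.1 (Finset.max'_mem _ hne)).2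
    have hlt : ∀ l, j < l → v (F (X (xi l))) ≤ 1 := by
      intro l hl
      by_contra hcon
      refine absurd (Finset.le_max' _ l (Finset.mem_filter.2 ⟨Finset.mem_univ _, ?_⟩))
        (not_le.2 hl)
      exact not_le.1 hcon
    have hphi : ∀ i, v (F' (A.phi j i)) ≤ 1 := fun i =>
      val_le_one F' v (hI.1 j i) fun l hl => by
        rw [hF'X]
        exact hlt l (hG.1 j i l hl)
    refine mem_unitPart_of_oneUnit' v (xi j) _ ?_
    rw [map_ent_x]
    have e2 : ∀ i, f (A.mkO lam (A.fac j i)) = F (X (xi j)) - F' (A.phi j i) := fun i => e1 j i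
    rw [div_sub_one (fac_ne_zero f j 0), map_div₀, e2, e2]
    have h1 : v (F (X (xi j)) - F' (A.phi j 0)) = v (F (X (xi j))) :=
      Valuation.map_sub_eq_of_lt_left v ((hphi 0).trans_lt hj)
    have h2 : v (F (X (xi j)) - F' (A.phi j (k j).succ) - (F (X (xi j)) - F' (A.phi j 0))) ≤
        1 := by
      have e : F (X (xi j)) - F' (A.phi j (k j).succ) - (F (X (xi j)) - F' (A.phi j 0)) =
        F' (A.phi j 0) - F' (A.phi j (k j).succ) := by ring
      rw [e]
      exact (v.map_sub _ _).trans (max_le (hphi _) (hphi _))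
    rw [h1]
    have h3 : 0 < v (F (X (xi j))) := zero_lt_one.trans hj
    rw [div_lt_one₀ h3]
    exact h2.trans_lt hj
  · push Not at hB
    have hphi : ∀ j i, v (F' (A.phi j i)) ≤ 1 := fun j i =>
      val_le_one F' v (hI.1 j i) fun l _ => by
        rw [hF'X]
        exact hB l
    have hsub : ∀ j i, v (F (A.fac j i)) ≤ 1 := fun j i => by
      rw [e1]
      exact (v.map_sub _ _).trans (max_le (hB j) (hphi j i))
    have hprod : v (∏ j, ∏ i, F (A.fac j i)) ≤ 1 := by
      rw [map_prod]
      refine Finset.prod_le_one' fun j _ => ?_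
      rw [map_prod]
      exact Finset.prod_le_one' fun i _ => hsub j i
    have hlam' : v (F (C lam)) ≤ 1 :=
      val_le_one_of_integral v (map_isIntegral_int (F.comp (C : K →+* _)) hlam)
    have heq := A.eq_of_hom lam F (by
      rw [hF, RingHom.comp_apply, A.mkO_eqn, map_zero])
    -- the units `y`
    have hy0 : ∀ l : Fin q, F (X (yi l)) ≠ 0 := fun l => y_ne_zero f l
    set y : Fin q → Lˣ := fun l => Units.mk0 (F (X (yi l))) (hy0 l) with hy
    have hyc : ∀ l, (y l : L) = F (X (yi l)) := fun l => rfl
    have hpsi : F A.psi' = eval₂ (F.comp C) (fun l => (y l : L)) A.psi := hom_psi' F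
    -- it is enough to show that `{y}` is in `onePart`
    have hone : symb y ∈ onePart v q →
        symb (fun j => Units.map (f : A.ORing lam →* L) (A.ent lam k j)) ∈
          unitPart v (q + n + 1) := by
      intro h
      refine onePart_le v (mem_onePart_of_comp v _ (yi_injective (q := q) (n := n)) ?_)
      have e : (fun l => Units.map (f : A.ORing lam →* L) (A.ent lam k (yi l))) = y := by
        funext l
        apply Units.ext
        rw [map_ent_y]
        rfl
      rw [e]
      exact h
    choose a ha using fun l => exists_ord v (y l)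
    have hmonoy : ∀ s : Fin q →₀ ℕ, v (∏ l, (y l : L) ^ s l) =
        WithZero.exp (∑ l, a l * (s l : ℤ)) := by
      intro s
      rw [map_prod]
      have hs : ∀ l, v ((y l : L) ^ s l) = WithZero.exp (a l * (s l : ℤ)) := fun l => by
        rw [map_pow, ha, ← WithZero.exp_nsmul, nsmul_eq_mul, mul_comm]
      simp only [hs]
      induction (Finset.univ : Finset (Fin q)) using Finset.induction_on with
      | empty => simp
      | insert i t hi ih => rw [Finset.prod_insert hi, Finset.sum_insert hi, ih, WithZero.exp_add]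
    -- the value of `g`
    obtain ⟨m, hm, hgm⟩ := exists_mono F v hI.2.1 hG.2.2.1
      (fun m => WithZero.exp (∑ l, a l * (m (yi l) : ℤ))) (fun m _ => by
        rw [MvPolynomial.monomial_eq, map_mul, map_one, map_one, one_mul, Finsupp.prod_fintype _ _
          (fun i => pow_zero _), prod_cases, map_mul, map_prod F, map_prod F, map_mul v]
        have h1 : v (∏ l, F (X (yi l) ^ m (yi l))) =
            WithZero.exp (∑ l, a l * (m (yi l) : ℤ)) := by
          rw [map_prod]
          have hs : ∀ l, v (F (X (yi l) ^ m (yi l))) = WithZero.exp (a l * (m (yi l) : ℤ)) :=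
            fun l => by
              rw [map_pow, ← hyc, map_pow, ha, ← WithZero.exp_nsmul, nsmul_eq_mul, mul_comm]
          simp only [hs]
          induction (Finset.univ : Finset (Fin q)) using Finset.induction_on with
          | empty => simp
          | insert i t hi ih =>
            rw [Finset.prod_insert hi, Finset.sum_insert hi, ih, WithZero.exp_add]
        have h2 : v (∏ j, F (X (xi j) ^ m (xi j))) ≤ 1 := by
          rw [map_prod]
          refine Finset.prod_le_one' fun j _ => ?_
          rw [map_pow, map_pow]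
          exact pow_le_one' (hB j) _
        rw [h1]
        exact mul_le_of_le_one_right' h2)
    have hval : v (F A.psi') ≤ v (F A.g) := by
      rw [← heq, map_mul, map_mul]
      calc v (F (C lam)) * (v (F A.g) * v (∏ j, ∏ i, F (A.fac j i))) ≤ 1 * (v (F A.g) * 1) :=
            mul_le_mul' hlam' (mul_le_mul' le_rfl hprod)
        _ = v (F A.g) := by rw [one_mul, mul_one]
    by_cases ha0 : a = 0
    · -- the `y` are units
      have hg1 : v (F A.g) ≤ 1 := by
        refine hgm.trans ?_
        rw [ha0]
        simp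
      rcases lt_or_eq_of_le (hval.trans hg1) with h | h
      · obtain ⟨s, hs⟩ := MvPolynomial.support_nonempty.2 hG.2.2.2
        refine hone (hT (F.comp C) v y ⟨s, hs, ?_⟩)
        rw [← hpsi, hmonoy, ha0]
        simpa using h
      · have hone' := h
        rw [← heq, map_mul, map_mul, map_prod] at hone'
        have hC : ∀ j i, v (F (A.fac j i)) = 1 := by
          intro j i
          refine le_antisymm (hsub j i) ?_
          rw [← hone']
          rw [← Finset.mul_prod_erase _ _ (Finset.mem_univ j), map_prod,
            ← Finset.mul_prod_erase _ _ (Finset.mem_univ i)]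
          have h1 : ∏ x ∈ Finset.univ.erase i, v (F (A.fac j x)) ≤ 1 :=
            Finset.prod_le_one' fun i _ => hsub j i
          have h2 : ∏ x ∈ Finset.univ.erase j, v (∏ i, F (A.fac x i)) ≤ 1 := by
            refine Finset.prod_le_one' fun k _ => ?_
            rw [map_prod]
            exact Finset.prod_le_one' fun i _ => hsub k i
          calc v (F (C lam)) * (v (F A.g) * (v (F (A.fac j i)) *
                (∏ x ∈ Finset.univ.erase i, v (F (A.fac j x))) *
                ∏ x ∈ Finset.univ.erase j, v (∏ i, F (A.fac x i))))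
              ≤ 1 * (1 * (v (F (A.fac j i)) * 1 * 1)) :=
                mul_le_mul' hlam' (mul_le_mul' hg1 (mul_le_mul' (mul_le_mul' le_rfl h1) h2))
            _ = v (F (A.fac j i)) := by rw [one_mul, one_mul, mul_one, mul_one]
        refine Submodule.subset_span ⟨_, fun l => ?_, rfl⟩
        refine ind_cases (P := fun l => v ((Units.map (f : A.ORing lam →* L)
          (A.ent lam k l) : Lˣ) : L) = 1) (fun l => ?_) (fun j => ?_) l
        · rw [map_ent_y]
          have h3 := ha l
          rw [ha0] at h3
          rw [hyc] at h3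
          simp only [Pi.zero_apply, WithZero.exp_zero] at h3
          exact h3
        · rw [map_ent_x, map_div₀]
          have h1 := hC j (k j).succ
          have h2 := hC j 0
          rw [hF, RingHom.comp_apply] at h1 h2
          rw [h1, h2, div_one]
    · -- some `y` is not a unit
      obtain ⟨s, hs, hlt⟩ := hN m hm (-a) (neg_ne_zero.2 ha0)
      refine hone (hT (F.comp C) v y ⟨s, hs, ?_⟩)
      rw [← hpsi, hmonoy]
      refine (hval.trans hgm).trans_lt ?_
      rw [WithZero.exp_lt_exp]
      simp only [Pi.neg_apply, neg_mul, Finset.sum_neg_distrib] at hlt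
      linarith

theorem symb_mem_unramified (hG : A.Graphs) (hI : A.Integral) (hN : A.Interior)
    (hT : ∀ (f : K →+* L) (v : Valuation L ℤᵐ⁰) (y : Fin q → Lˣ),
      (∃ s ∈ A.psi.support, v (eval₂ f (fun l => (y l : L)) A.psi) < v (∏ l, (y l : L) ^ s l)) →
        symb y ∈ onePart v q)
    (hlam : IsIntegral ℤ lam)
    (k : ∀ j, Fin (A.r j)) : KQ.map (q + n + 1) f (symb (A.ent lam k)) ∈
      Unramified L (q + n + 1) := by
  rw [KQ.map_symb]
  unfold Unramified
  simp only [Submodule.mem_iInf]
  intro v _
  exact symb_mem_unitPart f hG hI hN hT hlam v k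

end main

end Pool.Agent.K7.H52.TF
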