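import Mathlib
set_option autoImplicit false

/-!
Linearly independent integral vectors are rows of a nonsingular integral matrix.
-/

namespace Pool.Agent.K7.H52.TF

open Module

theorem exists_extend {q k : ℕ} (D : Fin k → Fin q → ℤ)
    (hD : LinearIndependent ℚ (fun (i : Fin k) (l : Fin q) => (D i l : ℚ))) :
    ∃ (M : Matrix (Fin q) (Fin q) ℤ) (ι : Fin k → Fin q), M.det ≠ 0 ∧ Function.Injective ι ∧
      ∀ i, M (ι i) = D i := by
  classical
  set DQ : Fin k → Fin q → ℚ := fun i l => (D i l : ℚ) with hDQ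
  set s : Set (Fin q → ℚ) := Set.range DQ with hs
  have hsli : LinearIndepOn ℚ id s := hD.linearIndepOn_id
  set t : Set (Fin q → ℚ) := s ∪ Set.range (Pi.basisFun ℚ (Fin q)) with ht
  have hst : s ⊆ t := Set.subset_union_left
  have htop : (⊤ : Submodule ℚ (Fin q → ℚ)) ≤ Submodule.span ℚ t := by
    rw [← (Pi.basisFun ℚ (Fin q)).span_eq]
    exact Submodule.span_mono Set.subset_union_right
  have hint : ∀ x ∈ t, ∃ z : Fin q → ℤ, ∀ l, (z l : ℚ) = x l := by
    rintro x (⟨i, rfl⟩ | ⟨i, rfl⟩)
    · exact ⟨D i, fun l => rfl⟩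
    · refine ⟨Pi.single i 1, fun l => ?_⟩
      rw [Pi.basisFun_apply]
      by_cases h : l = i
      · subst h
        rw [Pi.single_eq_same, Pi.single_eq_same, Int.cast_one]
      · rw [Pi.single_eq_of_ne h, Pi.single_eq_of_ne h, Int.cast_zero]
  set b := Basis.extendLe hsli hst htop with hb
  have hbx : ∀ x : hsli.extend hst, b x = (x : Fin q → ℚ) := fun x =>
    Basis.extendLe_apply_self hsli hst htop x
  have hfin : Fintype (hsli.extend hst) := FiniteDimensional.fintypeBasisIndex b
  have hcard : Fintype.card (hsli.extend hst) = q := by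
    rw [← Module.finrank_eq_card_basis b, Module.finrank_fin_fun]
  set e : hsli.extend hst ≃ Fin q := Fintype.equivFinOfCardEq hcard with he
  choose z hz using fun x : hsli.extend hst =>
    hint (x : Fin q → ℚ) (hsli.extend_subset hst x.2)
  set M : Matrix (Fin q) (Fin q) ℤ := Matrix.of fun r => z (e.symm r) with hM
  have hmem : ∀ i, DQ i ∈ hsli.extend hst := fun i => hsli.subset_extend hst ⟨i, rfl⟩
  refine ⟨M, fun i => e ⟨DQ i, hmem i⟩, ?_, fun i j h => ?_, fun i => ?_⟩
  · have h1 : LinearIndependent ℚ fun r => b (e.symm r) :=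
      b.linearIndependent.comp _ e.symm.injective
    have h2 : (fun r => b (e.symm r)) = (M.map (Int.castRingHom ℚ)).row := by
      funext r l
      show b (e.symm r) l = ((z (e.symm r) l : ℤ) : ℚ)
      rw [hz, hbx]
    rw [h2, Matrix.linearIndependent_rows_iff_isUnit, Matrix.isUnit_iff_isUnit_det,
      isUnit_iff_ne_zero] at h1
    intro h0
    apply h1
    have h3 : (M.map (Int.castRingHom ℚ)).det = ((M.det : ℤ) : ℚ) :=
      (RingHom.map_det (Int.castRingHom ℚ) M).symm
    rw [h3, h0, Int.cast_zero]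
  · have h1 := e.injective h
    have h2 : DQ i = DQ j := congrArg Subtype.val h1
    exact hD.injective h2
  · funext l
    have h1 : ((z (e.symm (e ⟨DQ i, hmem i⟩)) l : ℤ) : ℚ) = (D i l : ℚ) := by
      rw [hz, Equiv.symm_apply_apply]
    exact_mod_cast h1

end Pool.Agent.K7.H52.TF
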