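import Pool.Agent.K7.H52.TF.Unr
import Pool.Agent.K7.H52.TF.Ext
set_option autoImplicit false

/-!
Tempered polynomials: sums of the monomials of a simplex, products in disjoint variables, monomial
substitutions, divisors of `(X^N - 1)^M`.
-/

namespace Pool.Agent.K7.H52.TF

open Pool.Agent.TH826.MK

open Pool.Agent.TH826.SX (symb_self symb_self_neg symb_upd_one symb_upd_inv symb_upd_neg)

open Pool.Agent.TH826.EF (onePart onePart_le mem_onePart_of_sum_lt)

open Pool.Agent.TH690.SF (mem_onePart_of_comp)

open MvPolynomial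

open scoped WithZero

section det

variable {L : Type*} [Field L] {q : ℕ}

/-- The monomials with the exponents `D`. -/
def mono (y : Fin q → Lˣ) (D : Fin q → ℤ) : Lˣ := ∏ l, y l ^ D l

/-- The symbols of monomials as an alternating map. -/
noncomputable def altSymb (y : Fin q → Lˣ) : (Fin q → ℤ) [⋀^Fin q]→ₗ[ℤ] KQ L q where
  toFun D := symb fun k => mono y (D k)
  map_update_add' {hdec} D i a b := by
    have hd : hdec = instDecidableEqFin q := Subsingleton.elim _ _
    subst hd
    have e : ∀ c : Fin q → ℤ, (fun k => mono y (Function.update D i c k)) =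
        Function.update (fun k => mono y (D k)) i (mono y c) := by
      intro c
      funext k
      by_cases h : k = i
      · subst h
        rw [Function.update_self, Function.update_self]
      · rw [Function.update_of_ne h, Function.update_of_ne h]
    rw [e, e, e]
    have h1 : mono y (a + b) = mono y a * mono y b := by
      unfold mono
      rw [← Finset.prod_mul_distrib]
      refine Finset.prod_congr rfl fun l _ => ?_
      rw [Pi.add_apply, zpow_add]
    rw [h1, symb_update_mul]
  map_update_smul' {hdec} D i m a := by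
    have hd : hdec = instDecidableEqFin q := Subsingleton.elim _ _
    subst hd
    have e : ∀ c : Fin q → ℤ, (fun k => mono y (Function.update D i c k)) =
        Function.update (fun k => mono y (D k)) i (mono y c) := by
      intro c
      funext k
      by_cases h : k = i
      · subst h
        rw [Function.update_self, Function.update_self]
      · rw [Function.update_of_ne h, Function.update_of_ne h]
    rw [e, e]
    have h1 : mono y (m • a) = mono y a ^ m := by
      unfold mono
      rw [← Finset.prod_zpow]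
      refine Finset.prod_congr rfl fun l _ => ?_
      rw [Pi.smul_apply, smul_eq_mul, mul_comm, zpow_mul]
    rw [h1, symb_update_zpow, Int.cast_smul_eq_zsmul]
  map_eq_zero_of_eq' D i j h hij := by
    refine symb_self _ hij ?_
    show mono y (D j) = mono y (D i)
    rw [h]

theorem altSymb_apply (y : Fin q → Lˣ) (D : Fin q → Fin q → ℤ) :
    altSymb y D = symb fun k => mono y (D k) := rfl

/-- The symbol of monomials is the determinant of the exponents times the symbol. -/
theorem symb_mono (y : Fin q → Lˣ) (D : Matrix (Fin q) (Fin q) ℤ) :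
    symb (fun k => mono y (D k)) = D.det • symb y := by
  classical
  have hb : symb (fun k => mono y ((Pi.basisFun ℤ (Fin q)) k)) = symb y := by
    congr 1
    funext k
    unfold mono
    rw [Finset.prod_eq_single k]
    · rw [Pi.basisFun_apply, Pi.single_eq_same, zpow_one]
    · intro l _ hl
      rw [Pi.basisFun_apply, Pi.single_eq_of_ne hl, zpow_zero]
    · intro h
      exact absurd (Finset.mem_univ k) h
  have h : altSymb y = (LinearMap.toSpanSingleton ℤ (KQ L q) (symb y)).compAlternatingMap
      (Matrix.detRowAlternating (n := Fin q) (R := ℤ)) := by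
    refine Module.Basis.ext_alternating (Pi.basisFun ℤ (Fin q)) fun v hv => ?_
    set τ : Equiv.Perm (Fin q) := Equiv.ofBijective v
      ((Fintype.bijective_iff_injective_and_card v).2 ⟨hv, rfl⟩) with hτ
    have e : (fun i => (Pi.basisFun ℤ (Fin q)) (v i)) =
        (fun i => (Pi.basisFun ℤ (Fin q)) i) ∘ τ := rfl
    rw [e, AlternatingMap.map_perm, AlternatingMap.map_perm]
    congr 1
    rw [LinearMap.compAlternatingMap_apply, LinearMap.toSpanSingleton_apply]
    have h1 : (Matrix.detRowAlternating (n := Fin q) (R := ℤ))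
        (fun i => (Pi.basisFun ℤ (Fin q)) i) = 1 := by
      have h2 : (Matrix.of fun i => (Pi.basisFun ℤ (Fin q)) i :
          Matrix (Fin q) (Fin q) ℤ) = 1 := by
        ext i j
        rw [Matrix.of_apply, Pi.basisFun_apply, Matrix.one_apply]
        by_cases h : i = j
        · subst h
          rw [Pi.single_eq_same, if_pos rfl]
        · rw [Pi.single_eq_of_ne (Ne.symm h), if_neg h]
      show Matrix.det (Matrix.of fun i => (Pi.basisFun ℤ (Fin q)) i) = 1
      rw [h2, Matrix.det_one]
    rw [h1, one_smul]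
    exact hb
  have h2 := congrArg (fun f => f fun i => D i) h
  exact h2

theorem symb_mem_of_mono (y : Fin q → Lˣ) (D : Matrix (Fin q) (Fin q) ℤ) (hD : D.det ≠ 0)
    {S : Submodule ℚ (KQ L q)} (h : symb (fun k => mono y (D k)) ∈ S) : symb y ∈ S := by
  rw [symb_mono] at h
  have h2 : (D.det : ℚ) • symb y ∈ S := by rwa [Int.cast_smul_eq_zsmul]
  have hD' : (D.det : ℚ) ≠ 0 := by exact_mod_cast hD
  have h3 := S.smul_mem ((D.det : ℚ)⁻¹) h2
  rwa [smul_smul, inv_mul_cancel₀ hD', one_smul] at h3

end det

section root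

variable {L : Type*} [Field L] {n : ℕ}

theorem symb_update_root (a : Fin n → Lˣ) (i : Fin n) (z : Lˣ) {m : ℕ} (hm : 0 < m)
    (h : z ^ m = 1) : symb (Function.update a i (z * a i)) = symb a := by
  rw [symb_update_mul, Function.update_eq_self]
  have h1 := symb_update_zpow a i z (m : ℤ)
  rw [zpow_natCast, h, symb_upd_one] at h1
  have hm' : (((m : ℤ)) : ℚ) ≠ 0 := by exact_mod_cast hm.ne'
  have h3 : symb (Function.update a i z) = 0 := (smul_eq_zero.1 h1.symm).resolve_left hm'
  rw [h3, zero_add]

theorem symb_root (a : Fin n → Lˣ) (z : Fin n → Lˣ) (hz : ∀ i, ∃ m : ℕ, 0 < m ∧ z i ^ m = 1) :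
    symb (fun i => z i * a i) = symb a := by
  classical
  have key : ∀ S : Finset (Fin n), symb (fun i => if i ∈ S then z i * a i else a i) = symb a := by
    intro S
    induction S using Finset.induction_on with
    | empty => simp
    | insert j S hj ih =>
      obtain ⟨m, hm, h⟩ := hz j
      rw [← ih, ← symb_update_root (fun i => if i ∈ S then z i * a i else a i) j (z j) hm h]
      congr 1
      funext i
      by_cases hi : i = j
      · subst hi
        simp [hj]
      · simp [hi]
  have h := key Finset.univ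
  simpa using h

theorem val_root (v : Valuation L ℤᵐ⁰) {z : L} {m : ℕ} (hm : 0 < m) (h : z ^ m = 1) :
    v z = 1 := by
  have h1 : v z ^ m = 1 := by rw [← map_pow, h, map_one]
  exact (pow_eq_one_iff.1 h1).resolve_right hm.ne'

/-- A symbol with an entry, some power of which is a one-unit. -/
theorem mem_onePart_of_pow (v : Valuation L ℤᵐ⁰) (k : Fin n) (a : Fin n → Lˣ) {m : ℕ}
    (hm : m ≠ 0) (h : v (((a k : L)) ^ m - 1) < 1) : symb a ∈ onePart v n := by
  have h1 : symb (Function.update a k ((a k) ^ (m : ℤ))) = ((m : ℤ) : ℚ) • symb a := by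
    rw [symb_update_zpow, Function.update_eq_self]
  have h2 : symb (Function.update a k ((a k) ^ (m : ℤ))) ∈ onePart v n := by
    refine Submodule.subset_span ⟨_, k, ?_, rfl⟩
    rw [Function.update_self, zpow_natCast, Units.val_pow_eq_pow_val]
    exact h
  rw [h1] at h2
  have hm' : (((m : ℤ)) : ℚ) ≠ 0 := by exact_mod_cast hm
  have h3 := (onePart v n).smul_mem ((((m : ℤ)) : ℚ)⁻¹) h2
  rwa [smul_smul, inv_mul_cancel₀ hm', one_smul] at h3

end root

section temp

/-- The polynomial `∑_i a_i y^{s_i}`. -/
noncomputable def sumPoly {K : Type*} [Field K] {q k : ℕ} (a : Fin (k + 1) → K)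
    (s : Fin (k + 1) → Fin q →₀ ℕ) : MvPolynomial (Fin q) K := ∑ i, monomial (s i) (a i)

theorem eval_monomial {K : Type*} [Field K] {q : ℕ} {L : Type*} [Field L] (f : K →+* L)
    (y : Fin q → Lˣ) (s : Fin q →₀ ℕ) (a : K) :
    eval₂ f (fun l => (y l : L)) (monomial s a) = f a * ∏ l, (y l : L) ^ s l := by
  rw [MvPolynomial.eval₂_monomial, Finsupp.prod_fintype _ _ (fun i => pow_zero _)]

/-- A sum of monomials with roots of unity as coefficients and with affinely independent exponents
is tempered. -/
theorem tempered_sumPoly.{u, v} {K : Type u} [Field K] {q k : ℕ} (a : Fin (k + 1) → K)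
    (s : Fin (k + 1) → Fin q →₀ ℕ)
    (ha : ∀ i, ∃ m : ℕ, 0 < m ∧ a i ^ m = 1)
    (hs : LinearIndependent ℚ fun (i : Fin k) (l : Fin q) => ((s i.succ l : ℚ) - (s 0 l : ℚ))) :
    Tempered.{u, v} (sumPoly a s) := by
  classical
  intro L _ f v y h
  obtain ⟨t, ht, hlt⟩ := h
  have ht' : ∃ i, t = s i := by
    unfold sumPoly at ht
    obtain ⟨i, -, hi⟩ := Finset.mem_biUnion.1 (MvPolynomial.support_sum ht)
    have h1 := MvPolynomial.support_monomial_subset hi
    exact ⟨i, Finset.mem_singleton.1 h1⟩
  obtain ⟨i1, rfl⟩ := ht'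
  -- the units
  have ha0 : ∀ i, f (a i) ≠ 0 := by
    intro i
    obtain ⟨m, hm, h⟩ := ha i
    refine (map_ne_zero f).2 ?_
    intro h0
    rw [h0, zero_pow hm.ne'] at h
    exact zero_ne_one h
  set z : Fin (k + 1) → Lˣ := fun i => Units.mk0 (f (a i)) (ha0 i) * ∏ l, y l ^ s i l with hz
  have hzc : ∀ i, (z i : L) = f (a i) * ∏ l, (y l : L) ^ s i l := by
    intro i
    simp [hz]
  have hvz : ∀ i, v (z i : L) = v (∏ l, (y l : L) ^ s i l) := by
    intro i
    obtain ⟨m, hm, h⟩ := ha i
    rw [hzc, map_mul, val_root v hm (by rw [← map_pow, h, map_one]), one_mul]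
  have hsum : ∑ i, (z i : L) = eval₂ f (fun l => (y l : L)) (sumPoly a s) := by
    unfold sumPoly
    rw [MvPolynomial.eval₂_sum]
    refine Finset.sum_congr rfl fun i _ => ?_
    rw [eval_monomial, hzc]
  obtain ⟨l, -, hl⟩ := Finset.exists_max_image Finset.univ (fun k => v (z k : L))
    ⟨i1, Finset.mem_univ i1⟩
  have h1 := mem_onePart_of_sum_lt v z l (fun k => hl k (Finset.mem_univ k)) (by
    rw [hsum]
    refine hlt.trans_le ?_
    rw [← hvz]
    exact hl i1 (Finset.mem_univ i1))
  set D : Fin k → Fin q → ℤ := fun i l => (s i.succ l : ℤ) - (s 0 l : ℤ) with hD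
  have h2 : (fun i : Fin k => z i.succ / z 0) = fun i =>
      (Units.mk0 (f (a i.succ)) (ha0 _) / Units.mk0 (f (a 0)) (ha0 _)) * mono y (D i) := by
    funext i
    simp only [hz, mono, hD]
    rw [mul_div_mul_comm]
    congr 1
    rw [← Finset.prod_div_distrib]
    refine Finset.prod_congr rfl fun l _ => ?_
    rw [zpow_sub, zpow_natCast, zpow_natCast, div_eq_mul_inv]
  rw [h2, symb_root] at h1
  · obtain ⟨M, ι, hM, hι, hMι⟩ := exists_extend D (by
      have e : (fun (i : Fin k) (l : Fin q) => ((D i l : ℤ) : ℚ)) =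
          fun (i : Fin k) (l : Fin q) => ((s i.succ l : ℚ) - (s 0 l : ℚ)) := by
        funext i l
        simp only [hD]
        push_cast
        rfl
      rw [e]
      exact hs)
    refine symb_mem_of_mono y M hM (mem_onePart_of_comp v _ hι ?_)
    simp only [hMι]
    exact h1
  · intro i
    obtain ⟨m, hm, h⟩ := ha i.succ
    obtain ⟨m', hm', h'⟩ := ha 0
    refine ⟨m * m', Nat.mul_pos hm hm', ?_⟩
    apply Units.ext
    rw [Units.val_pow_eq_pow_val, Units.val_div_eq_div_val, Units.val_mk0, Units.val_mk0,
      Units.val_one, div_pow, pow_mul, ← map_pow, h, map_one, one_pow, mul_comm m m', pow_mul,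
      ← map_pow, h', map_one, one_pow, div_one]

/-- Products of tempered polynomials are tempered. -/
theorem tempered_mul.{u, v} {K : Type u} [Field K] {q : ℕ} {P Q : MvPolynomial (Fin q) K}
    (hP : Tempered.{u, v} P) (hQ : Tempered.{u, v} Q) : Tempered.{u, v} (P * Q) := by
  classical
  intro L _ f v y h
  obtain ⟨t, ht, hlt⟩ := h
  obtain ⟨s1, hs1, s2, hs2, rfl⟩ := Finset.mem_add.1 (MvPolynomial.support_mul _ _ ht)
  have hprod : ∏ l, (y l : L) ^ ((s1 + s2 : Fin q →₀ ℕ) l) =
      (∏ l, (y l : L) ^ s1 l) * ∏ l, (y l : L) ^ s2 l := by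
    rw [← Finset.prod_mul_distrib]
    exact Finset.prod_congr rfl fun l _ => by rw [Finsupp.add_apply, pow_add]
  rw [MvPolynomial.eval₂_mul, map_mul, hprod, map_mul] at hlt
  by_cases hc : v (eval₂ f (fun l => (y l : L)) P) < v (∏ l, (y l : L) ^ s1 l)
  · exact hP L f v y ⟨s1, hs1, hc⟩
  · by_cases hc2 : v (eval₂ f (fun l => (y l : L)) Q) < v (∏ l, (y l : L) ^ s2 l)
    · exact hQ L f v y ⟨s2, hs2, hc2⟩
    · exact absurd hlt (not_lt.2 (mul_le_mul' (not_lt.1 hc) (not_lt.1 hc2)))

/-- A tempered polynomial is tempered as a polynomial in more variables. -/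
theorem tempered_rename.{u, v} {K : Type u} [Field K] {p q : ℕ} {P : MvPolynomial (Fin p) K}
    (hP : Tempered.{u, v} P) (ι : Fin p → Fin q) (hι : Function.Injective ι) :
    Tempered.{u, v} (rename ι P) := by
  classical
  intro L _ f v y h
  obtain ⟨t, ht, hlt⟩ := h
  rw [MvPolynomial.support_rename_of_injective hι] at ht
  obtain ⟨s, hs, rfl⟩ := Finset.mem_image.1 ht
  rw [MvPolynomial.eval₂_rename] at hlt
  have hprod : ∏ l, (y l : L) ^ (Finsupp.mapDomain ι s l) = ∏ l, (y (ι l) : L) ^ s l := by
    rw [← Finset.prod_subset (Finset.subset_univ (Finset.univ.image ι)) (fun l _ hl => by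
      rw [Finsupp.mapDomain_of_notMem_range, pow_zero]
      rintro ⟨j, rfl⟩
      exact hl (Finset.mem_image_of_mem _ (Finset.mem_univ j))),
      Finset.prod_image fun a _ b _ h => hι h]
    exact Finset.prod_congr rfl fun l _ => by rw [Finsupp.mapDomain_apply hι]
  rw [hprod] at hlt
  exact mem_onePart_of_comp v y hι (hP L f v (fun l => y (ι l)) ⟨s, hs, hlt⟩)

/-- The exponents after a monomial substitution. -/
noncomputable def subMono {K : Type*} [Field K] {q : ℕ} (M : Fin q → Fin q →₀ ℕ)
    (P : MvPolynomial (Fin q) K) : MvPolynomial (Fin q) K :=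
  bind₁ (fun l => monomial (M l) 1) P

/-- The polynomials `P(y^{M_0}, ..., y^{M_{q-1}})` are tempered, if `P` is tempered and the
determinant of the exponents is not zero. -/
theorem tempered_subMono.{u, v} {K : Type u} [Field K] {q : ℕ} {P : MvPolynomial (Fin q) K}
    (hP : Tempered.{u, v} P) (M : Fin q → Fin q →₀ ℕ)
    (hM : (Matrix.of fun i l : Fin q => (M i l : ℤ)).det ≠ 0) :
    Tempered.{u, v} (subMono M P) := by
  classical
  intro L _ f v y h
  obtain ⟨t, ht, hlt⟩ := h
  set w : Fin q → Lˣ := fun k => mono y ((Matrix.of fun i l : Fin q => (M i l : ℤ)) k) with hw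
  have hwc : ∀ k, (w k : L) = ∏ l, (y l : L) ^ M k l := by
    intro k
    simp only [hw, mono, Matrix.of_apply, zpow_natCast]
    rw [Units.coe_prod]
    exact Finset.prod_congr rfl fun l _ => Units.val_pow_eq_pow_val _ _
  have hX : ∀ k, eval₂ f (fun l => (y l : L)) (monomial (M k) 1) = w k := by
    intro k
    rw [eval_monomial, map_one, one_mul, hwc]
  have heval : eval₂ f (fun l => (y l : L)) (subMono M P) = eval₂ f (fun l => (w l : L)) P := by
    unfold subMono
    have h1 : (eval₂Hom f (fun l => (y l : L))).comp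
        (bind₁ (fun l => monomial (M l) 1) : MvPolynomial (Fin q) K →ₐ[K] _).toRingHom =
        eval₂Hom f (fun l => (w l : L)) := by
      apply MvPolynomial.ringHom_ext
      · intro r
        simp
      · intro i
        simp only [AlgHom.toRingHom_eq_coe, RingHom.comp_apply, RingHom.coe_coe,
          MvPolynomial.bind₁_X_right, MvPolynomial.eval₂Hom_X']
        exact hX i
    have h2 := congrArg (fun g => g P) h1
    exact h2
  have hts : ∃ s ∈ P.support, ∏ l, (y l : L) ^ t l = ∏ l, (w l : L) ^ s l := by
    unfold subMono at ht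
    have e : bind₁ (fun l => monomial (M l) (1 : K)) P = ∑ m ∈ P.support,
        C (P.coeff m) * monomial (∑ l, m l • M l) 1 := by
      conv_lhs => rw [P.as_sum]
      rw [map_sum]
      refine Finset.sum_congr rfl fun m _ => ?_
      rw [MvPolynomial.bind₁_monomial, Finset.prod_subset (Finset.subset_univ m.support)
        (fun i _ hi => by rw [Finsupp.notMem_support_iff.1 hi, pow_zero]),
        MvPolynomial.monomial_sum_one]
      congr 1
      refine Finset.prod_congr rfl fun l _ => ?_
      rw [MvPolynomial.monomial_pow, one_pow]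
    rw [e] at ht
    obtain ⟨m, hm, hmt⟩ := Finset.mem_biUnion.1 (MvPolynomial.support_sum ht)
    refine ⟨m, hm, ?_⟩
    rw [MvPolynomial.C_mul_monomial] at hmt
    have h1 := Finset.mem_singleton.1 (MvPolynomial.support_monomial_subset hmt)
    have h2 : ∀ l, t l = ∑ k, m k * M k l := by
      intro l
      rw [h1, Finsupp.finsetSum_apply]
      exact Finset.sum_congr rfl fun k _ => by rw [Finsupp.smul_apply, smul_eq_mul]
    simp only [hwc, h2, ← Finset.prod_pow, ← pow_mul]
    rw [Finset.prod_comm]
    refine Finset.prod_congr rfl fun l _ => ?_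
    rw [Finset.prod_pow_eq_pow_sum]
    congr 1
    exact Finset.sum_congr rfl fun k _ => mul_comm _ _
  obtain ⟨s, hs, hts⟩ := hts
  rw [heval, hts] at hlt
  exact symb_mem_of_mono y _ hM (hP L f v w ⟨s, hs, hlt⟩)

end temp

end Pool.Agent.K7.H52.TF
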