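import Pool.Agent.K7.H52.TF.Def
import Pool.Agent.Y797.TW.Mon
set_option autoImplicit false

/-!
The charts near the corners of the tower and of the torus of the `y`.
-/

namespace Pool.Agent.K7.H52.TF

open Pool.Agent.Y797.TW (IsLow exists_low exists_tri tri_injective)

open MvPolynomial

variable {K : Type*} [Field K] {q n : ℕ} (A : Fib K q n)

/-- the indices of the functions `g`, `ψ`, `y_l`, `x_j - φ_{j,i}` -/
abbrev Idx (A : Fib K q n) : Type :=
  Option (Option (Fin q ⊕ ((j : Fin (n + 1)) × Fin (A.r j + 1))))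

/-- the functions -/
noncomputable def fct : Idx A → MvPolynomial (Fin (q + n + 1)) K
  | none => A.g
  | some none => A.psi'
  | some (some (Sum.inl l)) => X (yi l)
  | some (some (Sum.inr e)) => A.fac e.1 e.2

/-- the exponents of the functions in the equation -/
def wt : Idx A → ℤ
  | none => 1
  | some none => -1
  | some (some (Sum.inl _)) => 0
  | some (some (Sum.inr _)) => 1

section supp

variable {k : Type*} [Field k]

/-- The exponents of the `y` do not change under a substitution that concerns only the `x`. -/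
theorem exists_exponent {x : Fin (q + n + 1) → MvPolynomial (Fin (q + n + 1)) k}
    (hy : ∀ l : Fin q, x (yi l) = X (yi l))
    (hx : ∀ j : Fin (n + 1), ∀ i ∈ (x (xi j)).vars, ∀ l : Fin q, i ≠ yi l)
    (p : MvPolynomial (Fin (q + n + 1)) k) {β : Fin (q + n + 1) →₀ ℕ}
    (hβ : β ∈ (bind₁ x p).support) : ∃ m ∈ p.support, ∀ l : Fin q, β (yi l) = m (yi l) := by
  classical
  have e : bind₁ x p = ∑ m ∈ p.support, bind₁ x (monomial m (p.coeff m)) := by
    conv_lhs => rw [p.as_sum]
    rw [map_sum]
  rw [e] at hβ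
  obtain ⟨m, hm, hβm⟩ := Finset.mem_biUnion.1 (MvPolynomial.support_sum hβ)
  refine ⟨m, hm, fun l => ?_⟩
  set P : MvPolynomial (Fin (q + n + 1)) k :=
    C (p.coeff m) * ∏ j : Fin (n + 1), x (xi j) ^ m (xi j) with hP
  set my : Fin (q + n + 1) →₀ ℕ := ∑ l : Fin q, Finsupp.single (yi l) (m (yi l)) with hmy
  have hmon : bind₁ x (monomial m (p.coeff m)) = monomial my 1 * P := by
    rw [MvPolynomial.bind₁_monomial, Finset.prod_subset (Finset.subset_univ m.support)
      (fun i _ hi => by rw [Finsupp.notMem_support_iff.1 hi, pow_zero]), prod_cases, hP]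
    have h1 : (monomial my 1 : MvPolynomial (Fin (q + n + 1)) k) =
        ∏ l : Fin q, x (yi l) ^ m (yi l) := by
      rw [hmy, MvPolynomial.monomial_sum_one]
      refine Finset.prod_congr rfl fun l _ => ?_
      rw [hy, MvPolynomial.X_pow_eq_monomial]
    rw [h1]
    ring
  rw [hmon, MvPolynomial.mem_support_iff, MvPolynomial.coeff_monomial_mul'] at hβm
  have hle : my ≤ β := by
    by_contra h
    rw [if_neg h] at hβm
    exact hβm rfl
  rw [if_pos hle, one_mul] at hβm
  have hmyl : my (yi l) = m (yi l) := by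
    rw [hmy, Finsupp.finsetSum_apply, Finset.sum_eq_single l]
    · rw [Finsupp.single_eq_same]
    · intro l' _ hl'
      rw [Finsupp.single_eq_of_ne]
      exact fun h => hl' (yi_injective h).symm
    · intro h
      exact absurd (Finset.mem_univ l) h
  have hz : (β - my) (yi l) = 0 := by
    by_contra hne
    have h1 : (yi l : Fin (q + n + 1)) ∈ P.vars :=
      (MvPolynomial.mem_vars_iff_mem_support _).2 ⟨β - my, MvPolynomial.mem_support_iff.2 hβm,
        Finsupp.mem_support_iff.2 hne⟩
    rw [hP] at h1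
    have h2 := MvPolynomial.vars_mul _ _ h1
    rw [MvPolynomial.vars_C, Finset.empty_union] at h2
    have h3 := MvPolynomial.vars_prod _ h2
    obtain ⟨j, -, hj⟩ := Finset.mem_biUnion.1 h3
    exact hx j _ (MvPolynomial.vars_pow _ _ hj) l rfl
  have h4 := hle (yi l)
  rw [Finsupp.tsub_apply] at hz
  omega

end supp

/-- The chart at the corner of the graphs `φ_{j, c_j}`. -/
theorem exists_chart (σ : K →+* ℂ) (hG : A.Graphs) (hN : A.Interior)
    (c : ∀ j, Fin (A.r j + 1)) :
    ∃ (x : Fin (q + n + 1) → MvPolynomial (Fin (q + n + 1)) ℂ)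
      (al : Idx A → Fin (q + n + 1) →₀ ℕ),
      (∀ e, IsLow (bind₁ x (map σ (fct A e))) (al e)) ∧
      (∀ l, al (some (some (Sum.inl l))) = Finsupp.single (yi l) 1) ∧
      (∀ j, al (some (some (Sum.inr ⟨j, c j⟩))) = Finsupp.single (xi j) 1) ∧
      (∀ j i, i ≠ c j → ∀ l, l ≤ xi j → al (some (some (Sum.inr ⟨j, i⟩))) l = 0) ∧
      (∀ l : Fin q, (l : ℕ) = 0 → al (some none) (yi l) < al none (yi l)) ∧
      ∀ j, al (some none) (xi j) = 0 := by
  classical
  obtain ⟨hG1, hG2, hG3, hG4⟩ := hG
  set φ : Fin (q + n + 1) → MvPolynomial (Fin (q + n + 1)) ℂ :=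
    cases (fun _ => 0) (fun j => map σ (rename xi (A.phi j (c j)))) with hφ
  have hφy : ∀ l : Fin q, φ (yi l) = 0 := fun l => cases_yi _ _ l
  have hφx : ∀ j : Fin (n + 1), φ (xi j) = map σ (rename xi (A.phi j (c j))) :=
    fun j => cases_xi _ _ j
  have hvars : ∀ (p : MvPolynomial (Fin (q + n + 1)) K), (map σ p).vars = p.vars := fun p =>
    MvPolynomial.vars_map_of_injective p σ.injective
  have hren : ∀ (j : Fin (n + 1)) (i : Fin (A.r j + 1)),
      ∀ l ∈ (rename xi (A.phi j i) : MvPolynomial (Fin (q + n + 1)) K).vars,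
      ∃ l', j < l' ∧ l = xi l' := by
    intro j i l hl
    obtain ⟨l', hl', rfl⟩ := MvPolynomial.mem_vars_rename _ _ hl
    exact ⟨l', hG1 j i l' hl', rfl⟩
  have hφv : ∀ i, ∀ l ∈ (φ i).vars, i < l := by
    intro i
    refine ind_cases (P := fun i => ∀ l ∈ (φ i).vars, i < l) (fun l => ?_) (fun j => ?_) i
    · intro l' hl'
      rw [hφy, MvPolynomial.vars_0] at hl'
      exact absurd hl' (Finset.notMem_empty _)
    · intro l hl
      rw [hφx, hvars] at hl
      obtain ⟨l', hl', rfl⟩ := hren j _ l hl
      rw [Fin.lt_def, xi_val, xi_val]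
      have := Fin.lt_def.1 hl'
      omega
  obtain ⟨x, hx, hxv⟩ := exists_tri φ hφv
  have hinj : Function.Injective (bind₁ x) := tri_injective hφv hx
  have hmapinj : Function.Injective (map σ : MvPolynomial (Fin (q + n + 1)) K →
      MvPolynomial (Fin (q + n + 1)) ℂ) := MvPolynomial.map_injective σ σ.injective
  have hreninj : Function.Injective (rename (R := K) (xi (q := q) (n := n))) :=
    MvPolynomial.rename_injective _ xi_injective
  have hreninjy : Function.Injective (rename (R := K) (yi (q := q) (n := n))) :=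
    MvPolynomial.rename_injective _ yi_injective
  have hxy : ∀ l : Fin q, x (yi l) = X (yi l) := by
    intro l
    rw [hx, hφy, map_zero, add_zero]
  have hxx : ∀ j : Fin (n + 1), ∀ i ∈ (x (xi j)).vars, ∀ l : Fin q, i ≠ yi l := by
    intro j i hi l h
    have h1 := hxv _ i hi
    rw [h] at h1
    exact absurd (yi_lt_xi l j) (not_lt.2 h1)
  -- the decomposition
  have hdec : ∀ (j : Fin (n + 1)) (i : Fin (A.r j + 1)), bind₁ x (map σ (A.fac j i)) =
      X (xi j) + bind₁ x (map σ (rename xi (A.phi j (c j) - A.phi j i))) := by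
    intro j i
    unfold Fib.fac
    rw [map_sub, map_sub, map_sub, map_sub, map_sub, MvPolynomial.map_X,
      MvPolynomial.bind₁_X_right]
    nth_rewrite 1 [hx (xi j)]
    rw [hφx]
    ring
  have hself : ∀ j, bind₁ x (map σ (A.fac j (c j))) = X (xi j) := by
    intro j
    rw [hdec, sub_self, map_zero, map_zero, map_zero, add_zero]
  have hpsi : ∀ (j : Fin (n + 1)) (i : Fin (A.r j + 1)), i ≠ c j →
      ∃ β ∈ (bind₁ x (map σ (A.fac j i))).support, ∀ l, l ≤ xi j → β l = 0 := by
    intro j i hi
    set ψ := bind₁ x (map σ (rename xi (A.phi j (c j) - A.phi j i))) with hψ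
    have hψ0 : ψ ≠ 0 := by
      intro h
      have h1 : map σ (rename xi (A.phi j (c j) - A.phi j i)) = 0 :=
        hinj (by rw [map_zero]; exact h)
      have h2 : (rename xi (A.phi j (c j) - A.phi j i) : MvPolynomial (Fin (q + n + 1)) K) = 0 :=
        hmapinj (by rw [map_zero]; exact h1)
      have h3 : A.phi j (c j) - A.phi j i = 0 := hreninj (by rw [map_zero]; exact h2)
      exact hi (hG2 j (sub_eq_zero.1 h3)).symm
    obtain ⟨β, hβ⟩ := MvPolynomial.support_nonempty.2 hψ0
    have hβ0 : ∀ l, l ≤ xi j → β l = 0 := by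
      intro l hl
      by_contra hne
      have h1 : l ∈ ψ.vars := (MvPolynomial.mem_vars_iff_mem_support l).2 ⟨β, hβ, Finsupp.mem_support_iff.2 hne⟩
      obtain ⟨m, hm, hm2⟩ := MvPolynomial.mem_vars_bind₁ _ _ h1
      rw [hvars, map_sub] at hm
      have h2 := MvPolynomial.vars_sub_subset _ hm
      have h3 : xi j < m := by
        rcases Finset.mem_union.1 h2 with h | h
        · obtain ⟨l', hl', rfl⟩ := hren j _ m h
          rw [Fin.lt_def, xi_val, xi_val]
          have := Fin.lt_def.1 hl'
          omega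
        · obtain ⟨l', hl', rfl⟩ := hren j _ m h
          rw [Fin.lt_def, xi_val, xi_val]
          have := Fin.lt_def.1 hl'
          omega
      exact absurd hl (not_le.2 (h3.trans_le (hxv m l hm2)))
    refine ⟨β, ?_, hβ0⟩
    rw [hdec, MvPolynomial.mem_support_iff, MvPolynomial.coeff_add, MvPolynomial.coeff_X, if_neg,
      zero_add]
    · exact MvPolynomial.mem_support_iff.1 hβ
    · intro h
      have h1 := hβ0 (xi j) le_rfl
      rw [← h, Finsupp.single_eq_same] at h1
      exact one_ne_zero h1
  have hpsi' : bind₁ x (map σ A.psi') = rename yi (map σ A.psi) := by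
    unfold Fib.psi'
    rw [MvPolynomial.map_rename, MvPolynomial.bind₁_rename]
    have e : x ∘ yi = X ∘ (yi : Fin q → Fin (q + n + 1)) := funext fun l => hxy l
    rw [e]
    have e2 : bind₁ (X ∘ (yi : Fin q → Fin (q + n + 1))) =
        (rename yi : MvPolynomial (Fin q) ℂ →ₐ[ℂ] _) := by
      apply MvPolynomial.algHom_ext
      intro l
      rw [MvPolynomial.bind₁_X_right, MvPolynomial.rename_X]
      rfl
    rw [e2]
  have hne : ∀ e, bind₁ x (map σ (fct A e)) ≠ 0 := by
    intro e h
    have h1 : map σ (fct A e) = 0 := hinj (by rw [map_zero]; exact h)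
    have h2 : fct A e = 0 := hmapinj (by rw [map_zero]; exact h1)
    rcases e with _ | (_ | (l | e))
    · exact hG3 h2
    · exact hG4 (hreninjy (by rw [map_zero]; exact h2))
    · exact MvPolynomial.X_ne_zero (yi l) h2
    · have h3 : A.fac e.1 e.2 = 0 := h2
      have h4 := hdec e.1 e.2
      rw [h3, map_zero, map_zero] at h4
      by_cases hi : e.2 = c e.1
      · rw [hi, sub_self, map_zero, map_zero, map_zero, add_zero] at h4
        exact MvPolynomial.X_ne_zero (xi e.1) h4.symm
      · obtain ⟨β, hβ, -⟩ := hpsi e.1 e.2 hi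
        rw [h3, map_zero, map_zero, MvPolynomial.support_zero] at hβ
        exact absurd hβ (Finset.notMem_empty β)
  choose al hal using fun e => exists_low (hne e)
  refine ⟨x, al, hal, fun l => ?_, fun j => ?_, fun j i hi => ?_, fun l hl => ?_, fun j => ?_⟩
  · have h1 := (hal (some (some (Sum.inl l)))).1
    have h2 : bind₁ x (map σ (fct A (some (some (Sum.inl l))))) = X (yi l) := by
      show bind₁ x (map σ (X (yi l))) = X (yi l)
      rw [MvPolynomial.map_X, MvPolynomial.bind₁_X_right, hxy]
    rw [h2, MvPolynomial.support_X, Finset.mem_singleton] at h1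
    exact h1
  · have h1 := (hal (some (some (Sum.inr ⟨j, c j⟩)))).1
    have h2 : bind₁ x (map σ (fct A (some (some (Sum.inr ⟨j, c j⟩))))) = X (xi j) := hself j
    rw [h2, MvPolynomial.support_X, Finset.mem_singleton] at h1
    exact h1
  · obtain ⟨β, hβ, hβ0⟩ := hpsi j i hi
    exact (hal (some (some (Sum.inr ⟨j, i⟩)))).zero hβ hβ0
  · -- the first exponents of `ψ` and `g`
    have h1 := (hal none).1
    obtain ⟨m, hm, hm2⟩ := exists_exponent hxy hxx _ h1
    have hm' : m ∈ A.g.support := by
      have h2 : m ∈ (map σ A.g).support := hm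
      rw [MvPolynomial.support_map_of_injective _ σ.injective] at h2
      exact h2
    obtain ⟨s, hs, hlt⟩ := hN m hm' (Pi.single l 1) (by
      intro h
      have := congrFun h l
      rw [Pi.single_eq_same, Pi.zero_apply] at this
      exact one_ne_zero this)
    have hsum : ∀ b : Fin q → ℤ, ∑ l', (Pi.single l 1 : Fin q → ℤ) l' * b l' = b l := by
      intro b
      rw [Finset.sum_eq_single l]
      · rw [Pi.single_eq_same, one_mul]
      · intro l' _ hl'
        rw [Pi.single_eq_of_ne hl', zero_mul]
      · intro h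
        exact absurd (Finset.mem_univ l) h
    rw [hsum fun l' => (s l' : ℤ), hsum fun l' => (m (yi l') : ℤ)] at hlt
    have hlt' : s l < m (yi l) := by exact_mod_cast hlt
    rw [hm2 l]
    refine lt_of_le_of_lt ?_ hlt'
    -- the exponent of `ψ`
    have hβ : Finsupp.mapDomain yi s ∈ (bind₁ x (map σ (fct A (some none)))).support := by
      have h2 : bind₁ x (map σ (fct A (some none))) = rename yi (map σ A.psi) := hpsi'
      rw [h2, MvPolynomial.mem_support_iff, MvPolynomial.coeff_rename_mapDomain _ yi_injective,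
        MvPolynomial.coeff_map]
      exact (map_ne_zero σ).2 (MvPolynomial.mem_support_iff.1 hs)
    have hβl : (Finsupp.mapDomain yi s : Fin (q + n + 1) →₀ ℕ) (yi l) = s l :=
      Finsupp.mapDomain_apply yi_injective s l
    rw [← hβl]
    by_cases he : Finsupp.mapDomain yi s = al (some none)
    · rw [he]
    · obtain ⟨i, h3, h4⟩ := (hal (some none)).2 _ hβ he
      by_cases hi : i = yi l
      · rw [hi] at h4
        exact h4.le
      · refine (h3 (yi l) ?_).le
        rw [Fin.lt_def, yi_val, hl]
        rcases Nat.eq_zero_or_pos (i : ℕ) with h | h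
        · exfalso
          apply hi
          apply Fin.ext
          rw [yi_val, h, hl]
        · exact h
  · have h1 := (hal (some none)).1
    have h2 : bind₁ x (map σ (fct A (some none))) = rename yi (map σ A.psi) := hpsi'
    rw [h2] at h1
    by_contra hne0
    have h3 : xi j ∈ (rename yi (map σ A.psi) : MvPolynomial (Fin (q + n + 1)) ℂ).vars :=
      (MvPolynomial.mem_vars_iff_mem_support _).2 ⟨_, h1, Finsupp.mem_support_iff.2 hne0⟩
    obtain ⟨l, -, hl⟩ := MvPolynomial.mem_vars_rename _ _ h3
    exact yi_ne_xi l j hl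

end Pool.Agent.K7.H52.TF
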