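import Pool.Agent.TH826.MK.Torus
set_option autoImplicit false

/-!
Definitions: the hypersurfaces `λ g(x, y) ∏_j ∏_i (x_j - φ_{j,i}(x_{j+1}, ..., x_n)) = ψ(y)`, their
open parts `y_1 ... y_q ψ(y) ≠ 0`, and the symbols with the entries `y_1, ..., y_q`,
`(x_j - φ_{j,k}) / (x_j - φ_{j,0})`.
-/

namespace Pool.Agent.K7.H52.TF

open Pool.Agent.TH826.MK (KQ symb Torus)

open MvPolynomial

/-- the index of the coordinate `y_l` among the coordinates `y_0, ..., y_{q-1}, x_0, ..., x_n` -/
def yi {q n : ℕ} (l : Fin q) : Fin (q + n + 1) := Fin.castAdd (n + 1) l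

/-- the index of the coordinate `x_j` among the coordinates `y_0, ..., y_{q-1}, x_0, ..., x_n` -/
def xi {q n : ℕ} (j : Fin (n + 1)) : Fin (q + n + 1) := Fin.natAdd q j

theorem yi_val {q n : ℕ} (l : Fin q) : ((yi l : Fin (q + n + 1)) : ℕ) = l := rfl

theorem xi_val {q n : ℕ} (j : Fin (n + 1)) : ((xi j : Fin (q + n + 1)) : ℕ) = q + j := rfl

theorem yi_injective {q n : ℕ} : Function.Injective (yi (q := q) (n := n)) :=
  Fin.castAdd_injective _ _

theorem xi_injective {q n : ℕ} : Function.Injective (xi (q := q) (n := n)) :=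
  Fin.natAdd_injective _ _

theorem yi_lt_xi {q n : ℕ} (l : Fin q) (j : Fin (n + 1)) : (yi l : Fin (q + n + 1)) < xi j := by
  rw [Fin.lt_def, yi_val, xi_val]
  omega

theorem yi_ne_xi {q n : ℕ} (l : Fin q) (j : Fin (n + 1)) : (yi l : Fin (q + n + 1)) ≠ xi j :=
  (yi_lt_xi l j).ne

/-- A function on the indices of all coordinates. -/
def cases {q n : ℕ} {α : Type*} (a : Fin q → α) (b : Fin (n + 1) → α) : Fin (q + n + 1) → α :=
  (Fin.append a b : Fin (q + (n + 1)) → α)

theorem cases_yi {q n : ℕ} {α : Type*} (a : Fin q → α) (b : Fin (n + 1) → α) (l : Fin q) :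
    cases a b (yi l) = a l := Fin.append_left a b l

theorem cases_xi {q n : ℕ} {α : Type*} (a : Fin q → α) (b : Fin (n + 1) → α) (j : Fin (n + 1)) :
    cases a b (xi j) = b j := Fin.append_right a b j

theorem ind_cases {q n : ℕ} {P : Fin (q + n + 1) → Prop} (hy : ∀ l, P (yi l))
    (hx : ∀ j, P (xi j)) (i : Fin (q + n + 1)) : P i :=
  Fin.addCases (m := q) (n := n + 1) (motive := P) hy hx i

theorem sum_cases {q n : ℕ} {M : Type*} [AddCommMonoid M] (f : Fin (q + n + 1) → M) :
    ∑ i, f i = ∑ l : Fin q, f (yi l) + ∑ j : Fin (n + 1), f (xi j) :=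
  Fin.sum_univ_add (a := q) (b := n + 1) f

theorem prod_cases {q n : ℕ} {M : Type*} [CommMonoid M] (f : Fin (q + n + 1) → M) :
    ∏ i, f i = (∏ l : Fin q, f (yi l)) * ∏ j : Fin (n + 1), f (xi j) :=
  Fin.prod_univ_add (a := q) (b := n + 1) f

/-- The data of a fibration over a tower of graphs: for every `j` the polynomials
`φ_{j,0}, ..., φ_{j,r_j}` in the variables `x_0, ..., x_n` (in fact in the `x_l`, `l > j`), a
polynomial `g` in all variables `y_0, ..., y_{q-1}, x_0, ..., x_n`, and a polynomial `ψ` in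
`y_0, ..., y_{q-1}`. -/
structure Fib (K : Type*) [Field K] (q n : ℕ) where
  /-- the numbers `r_j` -/
  r : Fin (n + 1) → ℕ
  /-- the polynomials `φ_{j,i}` -/
  phi : (j : Fin (n + 1)) → Fin (r j + 1) → MvPolynomial (Fin (n + 1)) K
  /-- the polynomial `g` -/
  g : MvPolynomial (Fin (q + n + 1)) K
  /-- the polynomial `ψ` -/
  psi : MvPolynomial (Fin q) K

namespace Fib

variable {K : Type*} [Field K] {q n : ℕ} (A : Fib K q n) (lam : K)

/-- The polynomials `φ_{j,i}` contain only the variables `x_l` with `l > j`, for each `j` they are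
different, and `g` and `ψ` are not zero. -/
def Graphs : Prop :=
  (∀ j i, ∀ l ∈ (A.phi j i).vars, j < l) ∧ (∀ j, Function.Injective (A.phi j)) ∧ A.g ≠ 0 ∧
    A.psi ≠ 0

/-- The coefficients of the polynomials `φ_{j,i}`, `g` and `ψ` are algebraic integers. -/
def Integral : Prop :=
  (∀ j i m, IsIntegral ℤ ((A.phi j i).coeff m)) ∧ (∀ m, IsIntegral ℤ (A.g.coeff m)) ∧
    ∀ m, IsIntegral ℤ (A.psi.coeff m)

/-- The exponents of the `y` in `g` belong to the interior of the Newton polytope of `ψ`: every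
nonzero linear form takes at some exponent of `ψ` a value smaller than at the exponent of `g`. -/
def Interior : Prop :=
  ∀ m ∈ A.g.support, ∀ ν : Fin q → ℤ, ν ≠ 0 →
    ∃ s ∈ A.psi.support, ∑ l, ν l * (s l : ℤ) < ∑ l, ν l * (m (yi l) : ℤ)

/-- The polynomial `x_j - φ_{j,i}`. -/
noncomputable def fac (j : Fin (n + 1)) (i : Fin (A.r j + 1)) :
    MvPolynomial (Fin (q + n + 1)) K :=
  X (xi j) - rename xi (A.phi j i)

/-- The polynomial `ψ(y)` in all variables. -/
noncomputable def psi' : MvPolynomial (Fin (q + n + 1)) K := rename yi A.psi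

/-- The polynomial `g ∏_j ∏_i (x_j - φ_{j,i})`. -/
noncomputable def prod : MvPolynomial (Fin (q + n + 1)) K := A.g * ∏ j, ∏ i, A.fac j i

/-- The polynomial `λ g ∏_j ∏_i (x_j - φ_{j,i}) - ψ`. -/
noncomputable def eqn : MvPolynomial (Fin (q + n + 1)) K := C lam * A.prod - A.psi'

/-- The polynomial `y_0 ... y_{q-1} ψ`. -/
noncomputable def den : MvPolynomial (Fin (q + n + 1)) K := (∏ l : Fin q, X (yi l)) * A.psi'

/-- The coordinate ring of the hypersurface. -/
def CRing : Type _ := MvPolynomial (Fin (q + n + 1)) K ⧸ Ideal.span {A.eqn lam}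

noncomputable instance : CommRing (A.CRing lam) :=
  show CommRing (MvPolynomial (Fin (q + n + 1)) K ⧸ Ideal.span {A.eqn lam}) from inferInstance

/-- The functions on the hypersurface defined by the polynomials. -/
noncomputable def mkC : MvPolynomial (Fin (q + n + 1)) K →+* A.CRing lam :=
  Ideal.Quotient.mk (Ideal.span {A.eqn lam})

/-- The coordinate ring of the open part `y_0 ... y_{q-1} ψ(y) ≠ 0` of the hypersurface. -/
def ORing : Type _ := Localization.Away (A.mkC lam A.den)

noncomputable instance : CommRing (A.ORing lam) :=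
  show CommRing (Localization.Away (A.mkC lam A.den)) from inferInstance

noncomputable instance : Algebra (A.CRing lam) (A.ORing lam) :=
  show Algebra (A.CRing lam) (Localization.Away (A.mkC lam A.den)) from inferInstance

instance : IsLocalization.Away (A.mkC lam A.den) (A.ORing lam) :=
  show IsLocalization.Away (A.mkC lam A.den) (Localization.Away (A.mkC lam A.den)) from
    inferInstance

/-- The functions on the open part of the hypersurface defined by the polynomials. -/
noncomputable def mkO : MvPolynomial (Fin (q + n + 1)) K →+* A.ORing lam :=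
  (algebraMap (A.CRing lam) (A.ORing lam)).comp (A.mkC lam)

theorem mkC_eqn : A.mkC lam (A.eqn lam) = 0 :=
  Ideal.Quotient.eq_zero_iff_mem.2 (Ideal.subset_span rfl)

theorem mkO_eqn : A.mkO lam (A.eqn lam) = 0 := by
  unfold mkO
  rw [RingHom.comp_apply, mkC_eqn, map_zero]

theorem eq_of_hom {B : Type*} [CommRing B] (F : MvPolynomial (Fin (q + n + 1)) K →+* B)
    (h : F (A.eqn lam) = 0) : F (C lam) * (F A.g * ∏ j, ∏ i, F (A.fac j i)) = F A.psi' := by
  unfold eqn prod at h
  rw [map_sub, sub_eq_zero] at h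
  rw [← h]
  simp only [map_mul, map_prod]

theorem isUnit_den : IsUnit (A.mkO lam A.den) :=
  IsLocalization.Away.algebraMap_isUnit (A.mkC lam A.den)

theorem isUnit_y (l : Fin q) : IsUnit (A.mkO lam (X (yi l))) := by
  refine isUnit_of_dvd_unit ?_ (A.isUnit_den lam)
  refine map_dvd _ (Dvd.dvd.mul_right ?_ _)
  exact Finset.dvd_prod_of_mem (fun l => (X (yi l) : MvPolynomial (Fin (q + n + 1)) K))
    (Finset.mem_univ l)

theorem isUnit_psi : IsUnit (A.mkO lam A.psi') :=
  isUnit_of_dvd_unit (map_dvd _ (Dvd.intro_left _ rfl)) (A.isUnit_den lam)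

theorem isUnit_fac (j : Fin (n + 1)) (i : Fin (A.r j + 1)) : IsUnit (A.mkO lam (A.fac j i)) := by
  refine isUnit_of_dvd_unit ?_ (A.isUnit_psi lam)
  rw [← A.eq_of_hom lam (A.mkO lam) (A.mkO_eqn lam)]
  refine Dvd.dvd.mul_left (Dvd.dvd.mul_left ?_ _) _
  exact (Finset.dvd_prod_of_mem (fun i => A.mkO lam (A.fac j i)) (Finset.mem_univ i)).trans
    (Finset.dvd_prod_of_mem (fun j => ∏ i, A.mkO lam (A.fac j i)) (Finset.mem_univ j))

/-- The unit `y_l` on the open part. -/
noncomputable def uy (l : Fin q) : (A.ORing lam)ˣ := (A.isUnit_y lam l).unit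

/-- The unit `x_j - φ_{j,i}` on the open part. -/
noncomputable def ux (j : Fin (n + 1)) (i : Fin (A.r j + 1)) : (A.ORing lam)ˣ :=
  (A.isUnit_fac lam j i).unit

theorem coe_uy (l : Fin q) : (A.uy lam l : A.ORing lam) = A.mkO lam (X (yi l)) := rfl

theorem coe_ux (j : Fin (n + 1)) (i : Fin (A.r j + 1)) :
    (A.ux lam j i : A.ORing lam) = A.mkO lam (A.fac j i) := rfl

/-- The units `y_0, ..., y_{q-1}` and `(x_j - φ_{j,k_j + 1}) / (x_j - φ_{j,0})`, for
`0 ≤ k_j < r_j`. -/
noncomputable def ent (k : ∀ j, Fin (A.r j)) : Fin (q + n + 1) → (A.ORing lam)ˣ :=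
  cases (A.uy lam) fun j => A.ux lam j (k j).succ / A.ux lam j 0

end Fib

end Pool.Agent.K7.H52.TF
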