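import Pool.Agent.K7.H52.TF.Def
import Pool.Agent.Y797.TW.Dom
set_option autoImplicit false

/-!
The coordinate rings are domains.
-/

namespace Pool.Agent.K7.H52.TF

open MvPolynomial

open Pool.Agent.Y797.TW (sb sb_C sb_X sb_X_ne dvd_sub_sb eval_sb)

section sep

variable {K : Type*} [Field K] {N : ℕ}

/-- The polynomials as polynomials in one of the variables. -/
noncomputable def sep (i0 : Fin (N + 1)) :
    MvPolynomial (Fin (N + 1)) K ≃ₐ[K] Polynomial (MvPolynomial (Fin N) K) :=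
  (renameEquiv K (finSuccEquiv' i0)).trans (optionEquivLeft K (Fin N))

theorem sep_self (i0 : Fin (N + 1)) : sep i0 (X i0 : MvPolynomial (Fin (N + 1)) K) =
    Polynomial.X := by
  unfold sep
  simp

theorem sep_rename (i0 : Fin (N + 1)) (p : MvPolynomial (Fin N) K) :
    sep i0 (rename i0.succAbove p) = Polynomial.C p := by
  induction p using MvPolynomial.induction_on with
  | C a =>
    unfold sep
    simp
  | add p q hp hq => rw [map_add, map_add, hp, hq, Polynomial.C_add]
  | mul_X p i hp =>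
    rw [map_mul, map_mul, hp, MvPolynomial.rename_X, Polynomial.C_mul]
    congr 1
    unfold sep
    simp

/-- Leaving out one of the variables. -/
noncomputable def kc (i0 : Fin (N + 1)) :
    MvPolynomial (Fin (N + 1)) K →ₐ[K] MvPolynomial (Fin N) K :=
  killCompl (Fin.succAbove_right_injective (p := i0))

theorem kc_rename (i0 : Fin (N + 1)) (p : MvPolynomial (Fin N) K) :
    kc i0 (rename i0.succAbove p) = p := killCompl_rename_app _ p

theorem rename_kc {i0 : Fin (N + 1)} {p : MvPolynomial (Fin (N + 1)) K} (h : i0 ∉ p.vars) :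
    rename i0.succAbove (kc i0 p) = p := by
  obtain ⟨p', rfl⟩ := MvPolynomial.exists_rename_eq_of_vars_subset_range p i0.succAbove
    (Fin.succAbove_right_injective) fun l hl => by
      refine Fin.exists_succAbove_eq ?_
      rintro rfl
      exact h hl
  rw [kc_rename]

theorem sep_eq {i0 : Fin (N + 1)} {p : MvPolynomial (Fin (N + 1)) K} (h : i0 ∉ p.vars) :
    sep i0 p = Polynomial.C (kc i0 p) := by
  conv_lhs => rw [← rename_kc h]
  exact sep_rename i0 _

theorem eval_kc {i0 : Fin (N + 1)} {p : MvPolynomial (Fin (N + 1)) K} (h : i0 ∉ p.vars)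
    (Y : Fin (N + 1) → K) :
    MvPolynomial.eval (fun l => Y (i0.succAbove l)) (kc i0 p) = MvPolynomial.eval Y p := by
  conv_rhs => rw [← rename_kc h]
  rw [MvPolynomial.eval_rename]
  rfl

end sep

section irr

/-- polynomials `a p - b` -/
theorem irr_sub_C {R S : Type*} [CommRing R] [IsDomain R] [CommRing S] [IsDomain S]
    (φ : R →+* S) (a b : R) (p : Polynomial R) (hp : p.Monic) (hd : 0 < p.natDegree) (ha : φ a = 0)
    (ha0 : a ≠ 0) (hb : φ b ≠ 0) (hlead : ∀ g h : R, φ g = 0 → φ h = 0 → a ≠ g * h)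
    (hab : IsRelPrime a b) : Irreducible (Polynomial.C a * p - Polynomial.C b) := by
  have hdeg : (Polynomial.C a * p).natDegree = p.natDegree := Polynomial.natDegree_C_mul ha0
  have hdeg1 : (Polynomial.C a * p - Polynomial.C b).natDegree = p.natDegree := by
    rw [← hdeg]
    refine Polynomial.natDegree_sub_eq_left_of_natDegree_lt ?_
    rw [Polynomial.natDegree_C, hdeg]
    exact hd
  have hc : ∀ n, 1 ≤ n → (Polynomial.C a * p - Polynomial.C b).coeff n = a * p.coeff n := by
    intro n hn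
    rw [Polynomial.coeff_sub, Polynomial.coeff_C_mul, Polynomial.coeff_C, if_neg (by omega), sub_zero]
  have hl : (Polynomial.C a * p - Polynomial.C b).leadingCoeff = a := by
    rw [Polynomial.leadingCoeff, hdeg1, hc _ hd, hp.coeff_natDegree, mul_one]
  refine Pool.Agent.TH826.MH.irr φ _ (by rw [hdeg1]; exact hd) ?_ (fun n hn => ?_) ?_ ?_
  · rw [Polynomial.coeff_sub, Polynomial.coeff_C_mul, Polynomial.coeff_C, if_pos rfl, map_sub, map_mul, ha, zero_mul, zero_sub]
    exact neg_ne_zero.2 hb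
  · rw [hc n hn, map_mul, ha, zero_mul]
  · rw [hl]
    exact hlead
  · intro c hcd
    rw [Polynomial.C_dvd_iff_dvd_coeff] at hcd
    have h1 := hcd p.natDegree
    rw [hc _ hd, hp.coeff_natDegree, mul_one] at h1
    have h2 := hcd 0
    rw [Polynomial.coeff_sub, Polynomial.coeff_C_mul, Polynomial.coeff_C, if_pos rfl] at h2
    refine hab h1 ?_
    have h3 := (dvd_sub (h1.mul_right (p.coeff 0)) h2)
    rwa [sub_sub_cancel] at h3

end irr

section main

variable {K : Type*} [Field K] {q n : ℕ}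

theorem degreeOf_zero_iff {ι : Type*} {l : ι} {p : MvPolynomial ι K} :
    MvPolynomial.degreeOf l p = 0 ↔ l ∉ p.vars := by
  classical
  rw [MvPolynomial.degreeOf_def, Multiset.count_eq_zero, MvPolynomial.vars_def,
    Multiset.mem_toFinset]

theorem vars_ren {A : Fib K q n} (hG : A.Graphs) {j : Fin (n + 1)} {i : Fin (A.r j + 1)}
    {l : Fin (q + n + 1)} (h : l ∈ (rename xi (A.phi j i) : MvPolynomial _ K).vars) :
    ∃ l', j < l' ∧ l = xi l' := by
  obtain ⟨l', hl', rfl⟩ := MvPolynomial.mem_vars_rename _ _ h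
  exact ⟨l', hG.1 j i l' hl', rfl⟩

theorem xi_notMem_psi (A : Fib K q n) (j : Fin (n + 1)) : (xi j : Fin (q + n + 1)) ∉ A.psi'.vars := by
  intro h
  obtain ⟨l', -, hl'⟩ := MvPolynomial.mem_vars_rename _ _ h
  exact yi_ne_xi l' j hl'

theorem fac_vars {A : Fib K q n} (hG : A.Graphs) {j : Fin (n + 1)} (hj : j ≠ 0)
    (i : Fin (A.r j + 1)) : (xi 0 : Fin (q + n + 1)) ∉ (A.fac j i).vars := by
  classical
  intro h
  have h1 := MvPolynomial.vars_sub_subset _ h
  rw [Finset.mem_union, MvPolynomial.vars_X, Finset.mem_singleton] at h1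
  rcases h1 with h1 | h1
  · exact hj (xi_injective h1).symm
  · obtain ⟨l', hl', h2⟩ := vars_ren hG h1
    rw [← xi_injective h2] at hl'
    exact Fin.not_lt_zero _ hl'

/-- A factor `x_j - φ_{j,i}` and `ψ` are relatively prime. -/
theorem fac_rel {A : Fib K q n} (hG : A.Graphs) (j : Fin (n + 1)) (i : Fin (A.r j + 1)) :
    IsRelPrime (A.fac j i) A.psi' := by
  classical
  intro c h1 h2
  have hpsi0 : A.psi' ≠ 0 := by
    unfold Fib.psi'
    intro h
    exact hG.2.2.2 (MvPolynomial.rename_injective _ yi_injective (by rw [h, map_zero]))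
  have hc : (xi j : Fin (q + n + 1)) ∉ c.vars := by
    obtain ⟨d, hd⟩ := h2
    have hc0 : c ≠ 0 := by
      rintro rfl
      rw [zero_mul] at hd
      exact hpsi0 hd
    have hd0 : d ≠ 0 := by
      rintro rfl
      rw [mul_zero] at hd
      exact hpsi0 hd
    have h3 := MvPolynomial.degreeOf_mul_eq (n := (xi j : Fin (q + n + 1))) hc0 hd0
    rw [← hd] at h3
    have h4 : MvPolynomial.degreeOf (xi j : Fin (q + n + 1)) A.psi' = 0 :=
      degreeOf_zero_iff.2 (xi_notMem_psi A j)
    exact degreeOf_zero_iff.1 (by omega)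
  obtain ⟨d, hd⟩ := h1
  have h3 := congrArg (pderiv (xi j : Fin (q + n + 1))) hd
  rw [Derivation.leibniz, MvPolynomial.pderiv_eq_zero_of_notMem_vars hc, smul_zero, add_zero,
    smul_eq_mul] at h3
  have h4 : pderiv (xi j : Fin (q + n + 1)) (A.fac j i) = 1 := by
    unfold Fib.fac
    rw [map_sub, MvPolynomial.pderiv_X_self, MvPolynomial.pderiv_eq_zero_of_notMem_vars, sub_zero]
    intro h5
    obtain ⟨l', hl', h6⟩ := vars_ren hG h5
    rw [← xi_injective h6] at hl'
    exact lt_irrefl _ hl'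
  rw [h4] at h3
  exact isUnit_of_dvd_one ⟨_, h3⟩

/-- the coefficient of the highest power of `x_0` -/
noncomputable def lc (A : Fib K q n) (lam : K) : MvPolynomial (Fin (q + n + 1)) K :=
  C lam * (A.g * ∏ j ∈ Finset.univ.erase 0, ∏ i, A.fac j i)

theorem eqn_eq (A : Fib K q n) (lam : K) : A.eqn lam =
    lc A lam * ∏ i, (X (xi 0) - rename xi (A.phi 0 i)) - A.psi' := by
  unfold Fib.eqn Fib.prod lc
  rw [← Finset.mul_prod_erase _ _ (Finset.mem_univ (0 : Fin (n + 1)))]
  unfold Fib.fac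
  ring

theorem notMem_mul {ι : Type*} {l : ι} {p p' : MvPolynomial ι K} (h : l ∉ p.vars)
    (h' : l ∉ p'.vars) : l ∉ (p * p').vars := by
  classical
  intro h1
  rcases Finset.mem_union.1 (MvPolynomial.vars_mul _ _ h1) with h2 | h2
  · exact h h2
  · exact h' h2

theorem notMem_prod {ι κ : Type*} {l : ι} {s : Finset κ} {p : κ → MvPolynomial ι K}
    (h : ∀ i ∈ s, l ∉ (p i).vars) : l ∉ (∏ i ∈ s, p i).vars := by
  classical
  intro h1
  obtain ⟨i, hi, hl⟩ := Finset.mem_biUnion.1 (MvPolynomial.vars_prod _ h1)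
  exact h i hi hl

theorem notMem_C {ι : Type*} (l : ι) (c : K) : l ∉ (C c : MvPolynomial ι K).vars := by
  rw [MvPolynomial.vars_C]
  exact Finset.notMem_empty _

theorem lc_vars {A : Fib K q n} (hG : A.Graphs) (lam : K)
    (hg : (xi 0 : Fin (q + n + 1)) ∉ A.g.vars) : (xi 0 : Fin (q + n + 1)) ∉ (lc A lam).vars :=
  notMem_mul (notMem_C _ _) (notMem_mul hg (notMem_prod fun j hj => notMem_prod fun i _ =>
    fac_vars hG (Finset.ne_of_mem_erase hj) i))

theorem fac_last {A : Fib K q n} (hG : A.Graphs) : ∃ c : Fin (A.r (Fin.last n) + 1) → K,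
    Function.Injective c ∧ ∀ i, A.fac (Fin.last n) i = X (xi (Fin.last n)) - C (c i) := by
  have hconst : ∀ i, ∃ c : K, A.phi (Fin.last n) i = C c := by
    intro i
    refine ⟨_, MvPolynomial.vars_eq_empty_iff_eq_C.1 ?_⟩
    refine Finset.eq_empty_iff_forall_notMem.2 fun l hl => ?_
    exact absurd (Fin.le_last l) (not_le.2 (hG.1 _ i l hl))
  choose c hc using hconst
  refine ⟨c, fun a b hab => ?_, fun i => ?_⟩
  · apply hG.2.1
    rw [hc, hc, hab]
  · unfold Fib.fac
    rw [hc, MvPolynomial.rename_C]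

theorem psi'_ne_zero {A : Fib K q n} (hG : A.Graphs) : A.psi' ≠ 0 := by
  unfold Fib.psi'
  intro h
  exact hG.2.2.2 (MvPolynomial.rename_injective _ yi_injective (by rw [h, map_zero]))

theorem sb_psi' (A : Fib K q n) (j : Fin (n + 1)) (c : K) :
    sb (xi j) c A.psi' = A.psi' := by
  unfold sb Fib.psi'
  rw [MvPolynomial.bind₁_rename]
  have h2 : (Function.update (X : Fin (q + n + 1) → MvPolynomial _ K) (xi j) (C c)) ∘ yi =
      X ∘ yi := by
    funext l
    exact Function.update_of_ne (yi_ne_xi l _) _ _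
  rw [h2]
  have h3 := MvPolynomial.bind₁_rename (R := K) (X : Fin (q + n + 1) → MvPolynomial _ K) yi A.psi
  rw [MvPolynomial.bind₁_X_left] at h3
  exact h3.symm

theorem sb_fac {A : Fib K q n} (hG : A.Graphs) {j : Fin (n + 1)} (hj : j ≠ Fin.last n) (c : K)
    (i : Fin (A.r j + 1)) : sb (xi (Fin.last n)) c (A.fac j i) ≠ 0 := by
  have hjl : (xi j : Fin (q + n + 1)) ≠ xi (Fin.last n) := fun h => hj (xi_injective h)
  unfold Fib.fac
  rw [map_sub, sb_X_ne hjl]
  intro h
  have h1 : (xi j : Fin (q + n + 1)) ∈ (sb (xi (Fin.last n)) c (rename xi (A.phi j i))).vars := by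
    rw [← sub_eq_zero.1 h, MvPolynomial.vars_X]
    exact Finset.mem_singleton_self _
  obtain ⟨p, hp, hp2⟩ := MvPolynomial.mem_vars_bind₁ _ _ h1
  by_cases hpl : p = xi (Fin.last n)
  · rw [hpl, Function.update_self, MvPolynomial.vars_C] at hp2
    exact absurd hp2 (Finset.notMem_empty _)
  · rw [Function.update_of_ne hpl, MvPolynomial.vars_X, Finset.mem_singleton] at hp2
    obtain ⟨l', hl', h2⟩ := vars_ren hG hp
    rw [← hp2] at h2
    rw [← xi_injective h2] at hl'
    exact lt_irrefl _ hl'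

theorem exists_factor [Infinite K] (A : Fib K q n) (hn : 1 ≤ n) (hG : A.Graphs) {lam : K}
    (hl : lam ≠ 0) (hg : (xi 0 : Fin (q + n + 1)) ∉ A.g.vars)
    {i0 : Fin (A.r (Fin.last n) + 1)} (hi0 : ¬ A.fac (Fin.last n) i0 ∣ A.g) :
    ∃ (c : K) (Q : MvPolynomial (Fin (q + n + 1)) K) (Y : Fin (q + n + 1) → K),
      lc A lam = (X (xi (Fin.last n)) - C c) * Q ∧ (xi 0 : Fin (q + n + 1)) ∉ Q.vars ∧
      Y (xi (Fin.last n)) = c ∧ MvPolynomial.eval Y Q ≠ 0 ∧ MvPolynomial.eval Y A.psi' ≠ 0 := by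
  classical
  have hln : Fin.last n ≠ 0 := by
    intro h
    have := congrArg Fin.val h
    simp at this
    omega
  obtain ⟨c, hcinj, hfl⟩ := fac_last hG
  obtain ⟨Q, hQ⟩ : ∃ Q : MvPolynomial (Fin (q + n + 1)) K, Q = C lam * (A.g *
    ((∏ i ∈ Finset.univ.erase i0, A.fac (Fin.last n) i) *
      ∏ j ∈ (Finset.univ.erase 0).erase (Fin.last n), ∏ i, A.fac j i)) := ⟨_, rfl⟩
  have hsub : sb (xi (Fin.last n)) (c i0) (Q * A.psi') ≠ 0 := by
    rw [hQ]
    simp only [map_mul, map_prod, sb_C]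
    refine mul_ne_zero (mul_ne_zero ?_ (mul_ne_zero ?_ (mul_ne_zero ?_ ?_))) ?_
    · intro h
      exact hl (MvPolynomial.C_injective _ _ (by rw [h, map_zero]))
    · intro h
      apply hi0
      have h1 := dvd_sub_sb (xi (Fin.last n)) (c i0) A.g
      rw [h, sub_zero] at h1
      rw [hfl]
      exact h1
    · refine Finset.prod_ne_zero_iff.2 fun i hi => ?_
      rw [hfl, map_sub, sb_X, sb_C, ← C_sub]
      intro h
      have h1 : c i0 - c i = 0 := MvPolynomial.C_injective _ _ (by rw [h, map_zero])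
      exact Finset.ne_of_mem_erase hi (hcinj (sub_eq_zero.1 h1)).symm
    · exact Finset.prod_ne_zero_iff.2 fun j hj => Finset.prod_ne_zero_iff.2 fun i _ =>
        sb_fac hG (Finset.ne_of_mem_erase hj) _ i
    · rw [sb_psi']
      exact psi'_ne_zero hG
  have hpt : ∃ y : Fin (q + n + 1) → K,
      MvPolynomial.eval y (sb (xi (Fin.last n)) (c i0) (Q * A.psi')) ≠ 0 := by
    by_contra hcon
    push Not at hcon
    refine hsub (MvPolynomial.funext fun y => ?_)
    rw [hcon y, map_zero]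
  obtain ⟨y0, hy0⟩ := hpt
  rw [eval_sb, map_mul] at hy0
  refine ⟨c i0, Q, Function.update y0 (xi (Fin.last n)) (c i0), ?_, ?_,
    Function.update_self _ _ _, left_ne_zero_of_mul hy0, right_ne_zero_of_mul hy0⟩
  · unfold lc
    rw [hQ, ← Finset.mul_prod_erase _ _ (Finset.mem_erase.2 ⟨hln, Finset.mem_univ _⟩),
      ← Finset.mul_prod_erase _ _ (Finset.mem_univ i0), hfl i0]
    ring
  · rw [hQ]
    exact notMem_mul (notMem_C _ _) (notMem_mul hg (notMem_mul
      (notMem_prod fun i _ => fac_vars hG hln i)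
      (notMem_prod fun j hj => notMem_prod fun i _ =>
        fac_vars hG (Finset.ne_of_mem_erase (Finset.mem_of_mem_erase hj)) i)))

theorem phi_vars {A : Fib K q n} (hG : A.Graphs) (i : Fin (A.r 0 + 1)) :
    (xi 0 : Fin (q + n + 1)) ∉ (rename xi (A.phi 0 i) : MvPolynomial _ K).vars := by
  intro h
  obtain ⟨l', hl', h2⟩ := vars_ren hG h
  rw [← xi_injective h2] at hl'
  exact lt_irrefl _ hl'

theorem sep_eqn {A : Fib K q n} (hG : A.Graphs) {lam : K}
    (hg : (xi 0 : Fin (q + n + 1)) ∉ A.g.vars) : sep (xi 0) (A.eqn lam) =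
      Polynomial.C (kc (xi 0) (lc A lam)) *
        ∏ i, (Polynomial.X - Polynomial.C (kc (xi 0) (rename xi (A.phi 0 i)))) -
          Polynomial.C (kc (xi 0) A.psi') := by
  rw [eqn_eq, map_sub, map_mul, sep_eq (lc_vars hG lam hg), sep_eq (xi_notMem_psi A 0), map_prod]
  congr 2
  refine Finset.prod_congr rfl fun i _ => ?_
  rw [map_sub, sep_self, sep_eq (phi_vars hG i)]

theorem lc_rel {A : Fib K q n} (hG : A.Graphs) {lam : K} (hl : lam ≠ 0)
    (hrel : IsRelPrime A.g A.psi') : IsRelPrime (lc A lam) A.psi' := by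
  unfold lc
  refine IsRelPrime.mul_left ?_ (IsRelPrime.mul_left hrel ?_)
  · exact ((isUnit_iff_ne_zero.2 hl).map C).isRelPrime_left
  · exact IsRelPrime.prod_left fun j _ => IsRelPrime.prod_left fun i _ => fac_rel hG j i

theorem kc_rel {A : Fib K q n} (hG : A.Graphs) {lam : K} (hl : lam ≠ 0)
    (hg : (xi 0 : Fin (q + n + 1)) ∉ A.g.vars)
    (hrel : IsRelPrime A.g A.psi') : IsRelPrime (kc (xi 0) (lc A lam)) (kc (xi 0) A.psi') := by
  intro d h1 h2
  have h3 := map_dvd (rename (R := K) (xi 0 : Fin (q + n + 1)).succAbove) h1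
  have h4 := map_dvd (rename (R := K) (xi 0 : Fin (q + n + 1)).succAbove) h2
  rw [rename_kc (lc_vars hG lam hg)] at h3
  rw [rename_kc (xi_notMem_psi A 0)] at h4
  have h5 := (lc_rel hG hl hrel h3 h4).map (kc (xi 0 : Fin (q + n + 1)))
  rwa [kc_rename] at h5

theorem kc_split {N : ℕ} {i0 ℓ : Fin (N + 1)} {ℓ' : Fin N} (h : i0.succAbove ℓ' = ℓ) (c : K)
    (Q : MvPolynomial (Fin (N + 1)) K) :
    kc i0 ((X ℓ - C c) * Q) = (X ℓ' - C c) * kc i0 Q := by
  subst h
  have h1 := kc_rename (K := K) i0 (X ℓ')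
  have h2 := kc_rename (K := K) i0 (C c)
  rw [MvPolynomial.rename_X] at h1
  rw [MvPolynomial.rename_C] at h2
  rw [map_mul, map_sub, h1, h2]

theorem hlead_aux {N : ℕ} {y : Fin N → K} {ℓ' : Fin N} {c : K} {Q : MvPolynomial (Fin N) K}
    (hc : y ℓ' = c) (hQ : MvPolynomial.eval y Q ≠ 0) (g h : MvPolynomial (Fin N) K)
    (hg : MvPolynomial.eval y g = 0) (hh : MvPolynomial.eval y h = 0) :
    (X ℓ' - C c) * Q ≠ g * h := by
  intro e
  have h2 := congrArg (fun p => MvPolynomial.eval y (MvPolynomial.pderiv ℓ' p)) e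
  simp only [Derivation.leibniz, smul_eq_mul, map_add, map_mul, hg, hh, zero_mul, map_sub,
    MvPolynomial.pderiv_X_self, MvPolynomial.pderiv_C, sub_zero, mul_one, map_one,
    MvPolynomial.eval_X, MvPolynomial.eval_C, add_zero] at h2
  rw [hc, sub_self, zero_mul, zero_add] at h2
  exact hQ h2

theorem X_sub_C_ne {N : ℕ} (ℓ' : Fin N) (c : K) : (X ℓ' - C c : MvPolynomial (Fin N) K) ≠ 0 := by
  intro h
  have h2 := congrArg (MvPolynomial.eval fun _ => c + 1) h
  simp at h2

/-- The criterion of Eisenstein for the coefficient of the highest power of `x_0`. -/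
theorem irreducible_of_simple (A : Fib K q n) (hG : A.Graphs) {lam : K}
    (hl : lam ≠ 0) (hg : (xi 0 : Fin (q + n + 1)) ∉ A.g.vars) (hrel : IsRelPrime A.g A.psi')
    {p : MvPolynomial (Fin (q + n + 1)) K} (hp : Irreducible p) (h1 : p ∣ lc A lam)
    (h2 : ¬ p ^ 2 ∣ lc A lam) : Irreducible (sep (xi 0) (A.eqn lam)) := by
  have hlc0 : lc A lam ≠ 0 := by
    intro h
    rw [h] at h2
    exact h2 (dvd_zero _)
  have hpv : (xi 0 : Fin (q + n + 1)) ∉ p.vars := by
    obtain ⟨d, hd⟩ := h1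
    have h0 : p * d ≠ 0 := by rw [← hd]; exact hlc0
    have h3 := MvPolynomial.degreeOf_mul_eq (n := (xi 0 : Fin (q + n + 1)))
      (left_ne_zero_of_mul h0) (right_ne_zero_of_mul h0)
    rw [← hd, degreeOf_zero_iff.2 (lc_vars hG lam hg)] at h3
    exact degreeOf_zero_iff.1 (by omega)
  have hkc := kc_rel hG hl hg hrel
  have hunit : ∀ a : MvPolynomial (Fin (q + n)) K,
      IsUnit (rename (xi 0 : Fin (q + n + 1)).succAbove a) → IsUnit a := by
    intro a ha
    have h5 := ha.map (kc (xi 0 : Fin (q + n + 1)))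
    rwa [kc_rename] at h5
  have hp' : Irreducible (kc (xi 0) p) := by
    refine ⟨fun hu => hp.not_isUnit ?_, fun a b hab => ?_⟩
    · have h3 := hu.map (rename (R := K) (xi 0 : Fin (q + n + 1)).succAbove)
      rwa [rename_kc hpv] at h3
    · have h3 := congrArg (rename (R := K) (xi 0 : Fin (q + n + 1)).succAbove) hab
      rw [rename_kc hpv, map_mul] at h3
      exact (hp.isUnit_or_isUnit h3).imp (hunit a) (hunit b)
  have hprime : (Ideal.span {kc (xi 0) p}).IsPrime :=
    (Ideal.span_singleton_prime hp'.ne_zero).2 hp'.prime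
  have hdom : IsDomain (MvPolynomial (Fin (q + n)) K ⧸ Ideal.span {kc (xi 0) p}) :=
    Ideal.Quotient.isDomain _
  have hmk : ∀ a, Ideal.Quotient.mk (Ideal.span {kc (xi 0) p}) a = 0 ↔ kc (xi 0) p ∣ a := by
    intro a
    rw [Ideal.Quotient.eq_zero_iff_mem, Ideal.mem_span_singleton]
  rw [sep_eqn hG hg]
  have hmon : (∏ i, (Polynomial.X - Polynomial.C (kc (xi 0) (rename xi (A.phi 0 i)))) :
      Polynomial (MvPolynomial (Fin (q + n)) K)).Monic :=
    Polynomial.monic_prod_of_monic _ _ fun i _ => Polynomial.monic_X_sub_C _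
  have hdeg : (∏ i, (Polynomial.X - Polynomial.C (kc (xi 0) (rename xi (A.phi 0 i)))) :
      Polynomial (MvPolynomial (Fin (q + n)) K)).natDegree = A.r 0 + 1 := by
    rw [Polynomial.natDegree_prod_of_monic _ _ fun i _ => Polynomial.monic_X_sub_C _]
    simp
  have hd1 : kc (xi 0) p ∣ kc (xi 0) (lc A lam) := map_dvd _ h1
  refine irr_sub_C (Ideal.Quotient.mk (Ideal.span {kc (xi 0) p})) _ _ _
    hmon (by rw [hdeg]; omega) ((hmk _).2 hd1) ?_ ?_ ?_ hkc
  · intro h3
    have h4 := rename_kc (lc_vars hG lam hg)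
    rw [h3, map_zero] at h4
    exact hlc0 h4.symm
  · intro h3
    exact hp'.not_isUnit (hkc hd1 ((hmk _).1 h3))
  · intro g h hg' hh e
    apply h2
    have h3 : kc (xi 0) p ^ 2 ∣ kc (xi 0) (lc A lam) := by
      rw [e, pow_two]
      exact mul_dvd_mul ((hmk _).1 hg') ((hmk _).1 hh)
    have h4 := map_dvd (rename (R := K) (xi 0 : Fin (q + n + 1)).succAbove) h3
    rwa [map_pow, rename_kc hpv, rename_kc (lc_vars hG lam hg)] at h4

theorem irreducible_X_sub_C {N : ℕ} (l : Fin (N + 1)) (c : K) :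
    Irreducible (X l - C c : MvPolynomial (Fin (N + 1)) K) := by
  have h1 : sep l (X l - C c : MvPolynomial (Fin (N + 1)) K) = Polynomial.X - Polynomial.C (C c) := by
    have h2 := sep_rename (K := K) l (C c)
    rw [MvPolynomial.rename_C] at h2
    rw [map_sub, sep_self, h2]
  have h3 := Polynomial.irreducible_X_sub_C (C c : MvPolynomial (Fin N) K)
  rw [← h1] at h3
  exact (MulEquiv.irreducible_iff (sep l)).1 h3

theorem irreducible_eqn [Infinite K] (A : Fib K q n) (hn : 1 ≤ n) (hG : A.Graphs) {lam : K}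
    (hl : lam ≠ 0) (hg : (xi 0 : Fin (q + n + 1)) ∉ A.g.vars) (hrel : IsRelPrime A.g A.psi')
    {i0 : Fin (A.r (Fin.last n) + 1)} (hi0 : ¬ A.fac (Fin.last n) i0 ∣ A.g) :
    Irreducible (sep (xi 0) (A.eqn lam)) := by
  obtain ⟨c, Q, Y, hsplit, hQv, hYc, hQY, hpsiY⟩ := exists_factor A hn hG hl hg hi0
  refine irreducible_of_simple A hG hl hg hrel (irreducible_X_sub_C (xi (Fin.last n)) c)
    ⟨Q, hsplit⟩ ?_
  rw [hsplit, pow_two]
  intro h
  have h1 := (mul_dvd_mul_iff_left (X_sub_C_ne _ _)).1 h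
  obtain ⟨d, hd⟩ := h1
  apply hQY
  rw [hd, map_mul, map_sub, MvPolynomial.eval_X, MvPolynomial.eval_C, hYc, sub_self, zero_mul]

theorem natDegree_sep {A : Fib K q n} (hG : A.Graphs) {lam : K} (hl : lam ≠ 0)
    (hg : (xi 0 : Fin (q + n + 1)) ∉ A.g.vars) :
    0 < (sep (xi 0) (A.eqn lam)).natDegree := by
  have hlc0 : lc A lam ≠ 0 := by
    unfold lc
    refine mul_ne_zero (fun h => hl (MvPolynomial.C_injective _ _ (by rw [h, map_zero])))
      (mul_ne_zero hG.2.2.1 (Finset.prod_ne_zero_iff.2 fun j _ => Finset.prod_ne_zero_iff.2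
        fun i _ h => ?_))
    have h1 := fac_rel hG j i
    rw [h] at h1
    have h2 := isRelPrime_zero_left.1 h1
    unfold Fib.fac at h
    have h3 : (xi j : Fin (q + n + 1)) ∈ (rename xi (A.phi j i) : MvPolynomial _ K).vars := by
      rw [← sub_eq_zero.1 h, MvPolynomial.vars_X]
      exact Finset.mem_singleton_self _
    obtain ⟨l', hl', h4⟩ := vars_ren hG h3
    rw [← xi_injective h4] at hl'
    exact lt_irrefl _ hl'
  have hk0 : kc (xi 0) (lc A lam) ≠ 0 := by
    intro h3
    have h4 := rename_kc (lc_vars hG lam hg)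
    rw [h3, map_zero] at h4
    exact hlc0 h4.symm
  have hmon : (∏ i, (Polynomial.X - Polynomial.C (kc (xi 0) (rename xi (A.phi 0 i)))) :
      Polynomial (MvPolynomial (Fin (q + n)) K)).Monic :=
    Polynomial.monic_prod_of_monic _ _ fun i _ => Polynomial.monic_X_sub_C _
  have hdeg : (∏ i, (Polynomial.X - Polynomial.C (kc (xi 0) (rename xi (A.phi 0 i)))) :
      Polynomial (MvPolynomial (Fin (q + n)) K)).natDegree = A.r 0 + 1 := by
    rw [Polynomial.natDegree_prod_of_monic _ _ fun i _ => Polynomial.monic_X_sub_C _]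
    simp
  rw [sep_eqn hG hg, Polynomial.natDegree_sub_C, Polynomial.natDegree_C_mul hk0, hdeg]
  omega

theorem isDomain_ORing (A : Fib K q n) (hG : A.Graphs) {lam : K}
    (hl : lam ≠ 0) (hg : (xi 0 : Fin (q + n + 1)) ∉ A.g.vars)
    (h : Irreducible (sep (xi 0) (A.eqn lam))) : IsDomain (A.ORing lam) := by
  have h' : Irreducible (A.eqn lam) := (MulEquiv.irreducible_iff (sep (xi 0))).1 h
  have hp : (Ideal.span {A.eqn lam}).IsPrime :=
    (Ideal.span_singleton_prime h'.ne_zero).2 h'.prime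
  have hdom : IsDomain (A.CRing lam) :=
    show IsDomain (MvPolynomial (Fin (q + n + 1)) K ⧸ Ideal.span {A.eqn lam}) from
      Ideal.Quotient.isDomain _
  have hden0 : A.den ≠ 0 := by
    unfold Fib.den
    exact mul_ne_zero (Finset.prod_ne_zero_iff.2 fun l _ => MvPolynomial.X_ne_zero _)
      (psi'_ne_zero hG)
  have hden : A.mkC lam A.den ≠ 0 := by
    intro h0
    have h1 : A.eqn lam ∣ A.den :=
      Ideal.mem_span_singleton.1 (Ideal.Quotient.eq_zero_iff_mem.1 h0)
    have h2 := map_dvd (sep (xi 0 : Fin (q + n + 1))) h1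
    have hdv : (xi 0 : Fin (q + n + 1)) ∉ A.den.vars := by
      unfold Fib.den
      refine notMem_mul (notMem_prod fun l _ h3 => ?_) (xi_notMem_psi A 0)
      rw [MvPolynomial.vars_X, Finset.mem_singleton] at h3
      exact yi_ne_xi l 0 h3.symm
    rw [sep_eq hdv] at h2
    have hk0 : kc (xi 0 : Fin (q + n + 1)) A.den ≠ 0 := by
      intro h3
      have h4 := rename_kc hdv
      rw [h3, map_zero] at h4
      exact hden0 h4.symm
    have h3 := Polynomial.natDegree_le_of_dvd h2 (Polynomial.C_ne_zero.2 hk0)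
    rw [Polynomial.natDegree_C] at h3
    have h4 := natDegree_sep hG hl hg
    omega
  exact IsLocalization.isDomain_of_le_nonZeroDivisors (A.ORing lam)
    (M := Submonoid.powers (A.mkC lam A.den)) (powers_le_nonZeroDivisors_of_noZeroDivisors hden)

theorem dvd_lc {A : Fib K q n} {lam : K} (hl : lam ≠ 0) (p : MvPolynomial (Fin (q + n + 1)) K) :
    p ∣ lc A lam ↔ p ∣ A.g * ∏ j ∈ Finset.univ.erase 0, ∏ i, A.fac j i := by
  unfold lc
  exact (isUnit_iff_ne_zero.2 hl |>.map C).dvd_mul_left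

end main

end Pool.Agent.K7.H52.TF
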