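import Pool.Agent.K7.H52.TF.Def
set_option autoImplicit false

/-!
The complex points of the open parts of the hypersurfaces, and tori in them.
-/

namespace Pool.Agent.K7.H52.TF

open Pool.Agent.TH826.MK

open MvPolynomial

variable {K : Type*} [Field K] {q n d : ℕ} {A : Fib K q n} {lam : K} {σ : K →+* ℂ}

/-- the complex points of the open part -/
structure Pt (A : Fib K q n) (σ : K →+* ℂ) (lam : K) (x : Fin (q + n + 1) → ℂ) : Prop where
  eq : σ lam * (eval₂ σ x A.g * ∏ j, ∏ i, eval₂ σ x (A.fac j i)) = eval₂ σ x A.psi'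
  y : ∀ l : Fin q, x (yi l) ≠ 0
  psi : eval₂ σ x A.psi' ≠ 0

theorem eval_eqn (x : Fin (q + n + 1) → ℂ) : eval₂ σ x (A.eqn lam) =
    σ lam * (eval₂ σ x A.g * ∏ j, ∏ i, eval₂ σ x (A.fac j i)) - eval₂ σ x A.psi' := by
  unfold Fib.eqn Fib.prod
  rw [MvPolynomial.eval₂_sub, MvPolynomial.eval₂_mul, MvPolynomial.eval₂_mul,
    MvPolynomial.eval₂_C, MvPolynomial.eval₂_prod]
  simp only [MvPolynomial.eval₂_prod]

/-- evaluation of the regular functions at a complex point -/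
noncomputable def evC {x : Fin (q + n + 1) → ℂ} (hx : Pt A σ lam x) : A.CRing lam →+* ℂ :=
  Ideal.Quotient.lift (Ideal.span {A.eqn lam}) (eval₂Hom σ x) (by
    intro p hp
    have hle : Ideal.span {A.eqn lam} ≤ RingHom.ker (eval₂Hom σ x) := by
      rw [Ideal.span_le]
      rintro q rfl
      show eval₂ σ x (A.eqn lam) = 0
      rw [eval_eqn, sub_eq_zero]
      exact hx.eq
    exact hle hp)

theorem evC_mk {x : Fin (q + n + 1) → ℂ} (hx : Pt A σ lam x)
    (p : MvPolynomial (Fin (q + n + 1)) K) : evC hx (A.mkC lam p) = eval₂ σ x p :=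
  Ideal.Quotient.lift_mk _ _ _

theorem evC_den {x : Fin (q + n + 1) → ℂ} (hx : Pt A σ lam x) :
    evC hx (A.mkC lam A.den) ≠ 0 := by
  rw [evC_mk]
  unfold Fib.den
  rw [MvPolynomial.eval₂_mul, MvPolynomial.eval₂_prod]
  refine mul_ne_zero (Finset.prod_ne_zero_iff.2 fun l _ => ?_) hx.psi
  rw [MvPolynomial.eval₂_X]
  exact hx.y l

/-- evaluation of the regular functions on the open part at a complex point -/
noncomputable def evO {x : Fin (q + n + 1) → ℂ} (hx : Pt A σ lam x) : A.ORing lam →+* ℂ :=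
  IsLocalization.Away.lift (A.mkC lam A.den) (g := evC hx) (isUnit_iff_ne_zero.2 (evC_den hx))

theorem evO_algebraMap {x : Fin (q + n + 1) → ℂ} (hx : Pt A σ lam x) (a : A.CRing lam) :
    evO hx (algebraMap (A.CRing lam) (A.ORing lam) a) = evC hx a :=
  IsLocalization.Away.lift_eq _ _ _

theorem evO_mk {x : Fin (q + n + 1) → ℂ} (hx : Pt A σ lam x)
    (p : MvPolynomial (Fin (q + n + 1)) K) : evO hx (A.mkO lam p) = eval₂ σ x p := by
  unfold Fib.mkO
  rw [RingHom.comp_apply, evO_algebraMap, evC_mk]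

theorem evO_congr {x y : Fin (q + n + 1) → ℂ} (hx : Pt A σ lam x) (hy : Pt A σ lam y)
    (h : x = y) : evO hx = evO hy := by
  subst h
  rfl

theorem contDiff_evC {x : (Fin d → ℝ) → (Fin (q + n + 1) → ℂ)} (hc : ContDiff ℝ 2 x)
    (hx : ∀ θ, Pt A σ lam (x θ)) (h : A.CRing lam) : ContDiff ℝ 2 fun θ => evC (hx θ) h := by
  have hxk : ∀ k, ContDiff ℝ 2 fun θ => x θ k := fun k => contDiff_pi.1 hc k
  obtain ⟨p, hp⟩ := Ideal.Quotient.mk_surjective h
  have hmv : ∀ p : MvPolynomial (Fin (q + n + 1)) K,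
      ContDiff ℝ 2 fun θ => eval₂ σ (x θ) p := by
    intro p
    induction p using MvPolynomial.induction_on with
    | C c => simpa using contDiff_const
    | add p q hp hq => simpa using hp.add hq
    | mul_X p k hp => simpa using hp.mul (hxk k)
  have e : (fun θ => evC (hx θ) h) = fun θ => eval₂ σ (x θ) p := by
    funext θ
    rw [← hp]
    exact evC_mk (hx θ) p
  rw [e]
  exact hmv p

theorem contDiff_evO {x : (Fin d → ℝ) → (Fin (q + n + 1) → ℂ)} (hc : ContDiff ℝ 2 x)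
    (hx : ∀ θ, Pt A σ lam (x θ)) (h : A.ORing lam) : ContDiff ℝ 2 fun θ => evO (hx θ) h := by
  obtain ⟨k, a, hk⟩ := IsLocalization.Away.surj (A.mkC lam A.den) h
  have e : (fun θ => evO (hx θ) h) = fun θ => evC (hx θ) a *
      (evC (hx θ) (A.mkC lam A.den) ^ k)⁻¹ := by
    funext θ
    have h1 := congrArg (evO (hx θ)) hk
    rw [map_mul, map_pow, evO_algebraMap, evO_algebraMap] at h1
    rw [← h1, mul_assoc, mul_inv_cancel₀ (pow_ne_zero _ (evC_den (hx θ))), mul_one]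
  rw [e]
  exact (contDiff_evC hc hx a).mul (((contDiff_evC hc hx _).pow k).inv
    fun θ => pow_ne_zero _ (evC_den (hx θ)))

/-- a torus in the open part of the hypersurface -/
noncomputable def mkT (x : (Fin d → ℝ) → (Fin (q + n + 1) → ℂ)) (hc : ContDiff ℝ 2 x)
    (hp : ∀ θ i, x (θ + Pi.single i 1) = x θ) (hx : ∀ θ, Pt A σ lam (x θ)) :
    Torus (A.ORing lam) d where
  e θ := evO (hx θ)
  smooth h := contDiff_evO hc hx h
  periodic θ i := evO_congr _ _ (hp θ i)

theorem mkT_ux (x : (Fin d → ℝ) → (Fin (q + n + 1) → ℂ)) (hc : ContDiff ℝ 2 x)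
    (hp : ∀ θ i, x (θ + Pi.single i 1) = x θ) (hx : ∀ θ, Pt A σ lam (x θ))
    (j : Fin (n + 1)) (i : Fin (A.r j + 1)) :
    (mkT x hc hp hx).fn (A.ux lam j i : A.ORing lam) = fun θ => eval₂ σ (x θ) (A.fac j i) := by
  funext θ
  exact evO_mk (hx θ) _

theorem mkT_uy (x : (Fin d → ℝ) → (Fin (q + n + 1) → ℂ)) (hc : ContDiff ℝ 2 x)
    (hp : ∀ θ i, x (θ + Pi.single i 1) = x θ) (hx : ∀ θ, Pt A σ lam (x θ)) (l : Fin q) :
    (mkT x hc hp hx).fn (A.uy lam l : A.ORing lam) = fun θ => eval₂ σ (x θ) (X (yi l)) := by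
  funext θ
  exact evO_mk (hx θ) _

end Pool.Agent.K7.H52.TF
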