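import Pool.Agent.K7.H52.TF.Tor
import Pool.Agent.Y797.GC.Sard
set_option autoImplicit false

/-!
All tori together; smoothness for large `λ`.
-/

namespace Pool.Agent.K7.H52.TF

open Pool.Agent.TH826.MK

open MvPolynomial

variable {K : Type*} [Field K] {q n : ℕ} {A : Fib K q n}

theorem exists_tori (σ : K →+* ℂ) (hG : A.Graphs) (hI : A.Interior) :
    ∃ Λ : ℝ, 1 < Λ ∧ ∀ lam : K, Λ ≤ ‖σ lam‖ →
      ∃ Γ : (∀ j, Fin (A.r j)) → Torus (A.ORing lam) (q + n),
      (∀ t θ x, (Γ t).e θ (A.mkO lam (C x)) = σ x) ∧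
      (Matrix.of fun t k : (∀ j, Fin (A.r j)) => (Γ t).reg (symb (A.ent lam k))).det ≠ 0 := by
  classical
  choose D hD0 hD using fun c => exists_torus (A := A) σ hG hI c
  have hdiag : (Matrix.diagonal D).det ≠ 0 := by
    rw [Matrix.det_diagonal]
    exact Finset.prod_ne_zero_iff.2 fun c _ => hD0 c
  obtain ⟨δ, hδ, hnear⟩ := Pool.Agent.TH826.SX.det_ne_zero_near _ hdiag
  choose Λ hΛ1 hΛ using fun c => hD c (δ / 2) (by linarith)
  refine ⟨2 + ∑ c, |Λ c|, by
    have : 0 ≤ ∑ c, |Λ c| := Finset.sum_nonneg fun _ _ => abs_nonneg _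
    linarith, fun lam hlam => ?_⟩
  have hle : ∀ c, Λ c ≤ ‖σ lam‖ := fun c => by
    have h1 := Finset.single_le_sum (f := fun c => |Λ c|) (fun _ _ => abs_nonneg _)
      (Finset.mem_univ c)
    have h2 := le_abs_self (Λ c)
    linarith
  have hlog : 0 < Real.log ‖σ lam‖ := by
    refine Real.log_pos ?_
    have : 0 ≤ ∑ c, |Λ c| := Finset.sum_nonneg fun _ _ => abs_nonneg _
    linarith
  choose Γ hΓσ hΓ using fun c => hΛ c lam (hle c)
  refine ⟨Γ, hΓσ, ?_⟩
  have h1 := hnear (Matrix.of fun t k : (∀ j, Fin (A.r j)) =>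
    (Γ t).reg (symb (A.ent lam k)) / (-Real.log ‖σ lam‖)) (fun t k => by
      have h2 := hΓ t k
      have h3 : Matrix.diagonal D t k = (if k = t then 1 else 0) * D t := by
        by_cases h : k = t
        · subst h
          rw [Matrix.diagonal_apply_eq, if_pos rfl, one_mul]
        · rw [Matrix.diagonal_apply_ne _ (Ne.symm h), if_neg h, zero_mul]
      rw [Matrix.of_apply, h3]
      exact lt_of_le_of_lt h2 (by linarith))
  intro h0
  apply h1
  have h4 : (Matrix.of fun t k : (∀ j, Fin (A.r j)) =>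
      (Γ t).reg (symb (A.ent lam k)) / (-Real.log ‖σ lam‖)) =
      (-Real.log ‖σ lam‖)⁻¹ • Matrix.of fun t k : (∀ j, Fin (A.r j)) =>
        (Γ t).reg (symb (A.ent lam k)) := by
    ext t k
    rw [Matrix.smul_apply, Matrix.of_apply, Matrix.of_apply, smul_eq_mul, div_eq_inv_mul]
  rw [h4, Matrix.det_smul, h0, mul_zero]

section smooth

variable {ι : Type*}

/-- The polynomial `u + v (u P - S)` with two new variables `v`, `u`. -/
noncomputable def lag (P S : MvPolynomial ι ℂ) : MvPolynomial (Option (Option ι)) ℂ :=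
  X (some none) + X none * (X (some none) * rename (fun i => some (some i)) P -
    rename (fun i => some (some i)) S)

theorem pderiv_ren (P : MvPolynomial ι ℂ) (j : Option (Option ι))
    (hj : ∀ i, j ≠ some (some i)) :
    pderiv j (rename (fun i => some (some i)) P : MvPolynomial (Option (Option ι)) ℂ) = 0 := by
  refine MvPolynomial.pderiv_eq_zero_of_notMem_vars fun h => ?_
  obtain ⟨i, -, hi⟩ := MvPolynomial.mem_vars_rename _ _ h
  exact hj i hi.symm

/-- For all large `u` the level sets `u P = S`, `P ≠ 0` have no singular points. -/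
theorem exists_large [Finite ι] (P S : MvPolynomial ι ℂ) :
    ∃ Λ : ℝ, 1 < Λ ∧ ∀ u : ℂ, Λ ≤ ‖u‖ → ∀ z : ι → ℂ,
      u * MvPolynomial.eval z P = MvPolynomial.eval z S → MvPolynomial.eval z P ≠ 0 →
      ∃ i, u * MvPolynomial.eval z (pderiv i P) ≠ MvPolynomial.eval z (pderiv i S) := by
  classical
  obtain ⟨D, hD0, hD⟩ := Pool.Agent.Y797.GC.exists_crit (k := ℂ) (lag P S)
  refine ⟨2 + ∑ z ∈ D.roots.toFinset, ‖z‖, by
    have : 0 ≤ ∑ z ∈ D.roots.toFinset, ‖z‖ := Finset.sum_nonneg fun _ _ => norm_nonneg _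
    linarith, fun u hu z hz hP => ?_⟩
  by_contra hcon
  push Not at hcon
  have hinj : Function.Injective (fun i : ι => (some (some i) : Option (Option ι))) :=
    fun a b h => Option.some_injective _ (Option.some_injective _ h)
  set w : Option (Option ι) → ℂ := fun j => match j with
    | none => -(MvPolynomial.eval z P)⁻¹
    | some none => u
    | some (some i) => z i with hw
  have hren : ∀ p : MvPolynomial ι ℂ, MvPolynomial.eval w (rename (fun i => some (some i)) p) =
      MvPolynomial.eval z p := by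
    intro p
    rw [MvPolynomial.eval_rename]
    rfl
  have hw0 : w none = -(MvPolynomial.eval z P)⁻¹ := rfl
  have hw1 : w (some none) = u := rfl
  have hval : MvPolynomial.eval w (lag P S) = u := by
    unfold lag
    rw [map_add, map_mul, map_sub, map_mul, hren, hren, MvPolynomial.eval_X, MvPolynomial.eval_X,
      hw1, hz]
    ring
  have hder : ∀ j, MvPolynomial.eval w (pderiv j (lag P S)) = 0 := by
    intro j
    unfold lag
    rcases j with _ | (_ | i)
    · simp only [map_add, map_sub, Derivation.leibniz, smul_eq_mul]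
      rw [pderiv_ren P none (fun i => by simp), pderiv_ren S none (fun i => by simp),
        MvPolynomial.pderiv_X_of_ne (by simp), MvPolynomial.pderiv_X_self]
      simp only [mul_zero, add_zero, sub_zero, mul_one, map_sub, map_mul, hren,
        MvPolynomial.eval_X, map_zero, zero_add]
      rw [hw1, hz, sub_self]
    · simp only [map_add, map_sub, Derivation.leibniz, smul_eq_mul]
      rw [pderiv_ren P (some none) (fun i => by simp), pderiv_ren S (some none)
        (fun i => by simp), MvPolynomial.pderiv_X_self, MvPolynomial.pderiv_X_of_ne (by simp)]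
      simp only [mul_zero, add_zero, sub_zero, mul_one, zero_add, map_mul, hren,
        MvPolynomial.eval_X, map_one, map_add, map_zero]
      rw [hw0]
      field_simp
      simp
    · simp only [map_add, map_sub, Derivation.leibniz, smul_eq_mul]
      rw [MvPolynomial.pderiv_rename hinj, MvPolynomial.pderiv_rename hinj,
        MvPolynomial.pderiv_X_of_ne (by simp), MvPolynomial.pderiv_X_of_ne (by simp)]
      simp only [mul_zero, add_zero, map_sub, map_mul, hren,
        MvPolynomial.eval_X, map_zero, zero_add]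
      rw [hw1, hcon i, sub_self, mul_zero]
  have h1 : Ideal.span (Set.range fun i => MvPolynomial.pderiv i (lag P S)) ≤
      RingHom.ker (MvPolynomial.eval w) := by
    rw [Ideal.span_le]
    rintro _ ⟨i, rfl⟩
    exact hder i
  have h2 : MvPolynomial.eval w (Polynomial.aeval (lag P S) D) = 0 := h1 hD
  rw [Pool.Agent.Y797.GC.eval_aeval, hval] at h2
  have h3 : u ∈ D.roots.toFinset := by
    rw [Multiset.mem_toFinset, Polynomial.mem_roots hD0]
    exact h2
  have h4 := Finset.single_le_sum (f := fun z : ℂ => ‖z‖) (fun _ _ => norm_nonneg _) h3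
  linarith

end smooth

theorem eval_map' {ι : Type*} (σ : K →+* ℂ) (x : ι → ℂ) (p : MvPolynomial ι K) :
    MvPolynomial.eval x (map σ p) = eval₂ σ x p := by
  rw [MvPolynomial.eval_map]

theorem exists_smooth (A : Fib K q n) (σ : K →+* ℂ) :
    ∃ Λ : ℝ, 1 < Λ ∧ ∀ lam : K, Λ ≤ ‖σ lam‖ → ∀ x : Fin (q + n + 1) → ℂ,
      eval₂ σ x (A.eqn lam) = 0 → eval₂ σ x A.psi' ≠ 0 →
      ∃ i, eval₂ σ x (pderiv i (A.eqn lam)) ≠ 0 := by
  obtain ⟨Λ, hΛ, h⟩ := exists_large (map σ A.prod) (map σ A.psi')
  refine ⟨Λ, hΛ, fun lam hlam x hx hpsi => ?_⟩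
  have h1 : eval₂ σ x (A.eqn lam) = σ lam * eval₂ σ x A.prod - eval₂ σ x A.psi' := by
    unfold Fib.eqn
    rw [MvPolynomial.eval₂_sub, MvPolynomial.eval₂_mul, MvPolynomial.eval₂_C]
  rw [h1, sub_eq_zero] at hx
  obtain ⟨i, hi⟩ := h _ hlam x (by rw [eval_map', eval_map']; exact hx) (by
    rw [eval_map']
    intro h0
    rw [h0, mul_zero] at hx
    exact hpsi hx.symm)
  refine ⟨i, ?_⟩
  have h2 : pderiv i (A.eqn lam) = C lam * pderiv i A.prod - pderiv i A.psi' := by
    unfold Fib.eqn
    rw [map_sub, Derivation.leibniz, MvPolynomial.pderiv_C, smul_zero, add_zero, smul_eq_mul]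
  rw [h2, MvPolynomial.eval₂_sub, MvPolynomial.eval₂_mul, MvPolynomial.eval₂_C]
  rw [MvPolynomial.pderiv_map, MvPolynomial.pderiv_map, eval_map', eval_map'] at hi
  exact sub_ne_zero.2 hi

end Pool.Agent.K7.H52.TF
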