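import Pool.Agent.K7.H52.TF.Ev
import Pool.Agent.K7.H52.TF.Chart
import Pool.Agent.K7.H52.TF.Loc
import Pool.Agent.Y797.TW.Tor
set_option autoImplicit false

/-!
The tori near the corners, and the regulators of the symbols on them.
-/

namespace Pool.Agent.K7.H52.TF

open Pool.Agent.TH826.MK

open Pool.Agent.TH577.UA (mmon mrow yrow det_yrow)

open Pool.Agent.TH826.SX (pairing_close)

open Pool.Agent.Y797.TW (ex mch nex hh IsLow Rapid exists_rapid nex_compare eval_mch hh_zero
  contDiff_hh det_ex sum_nex wcc wcc_zero contDiff_wcc prod_wcc)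

open MvPolynomial

section det

variable {K : Type*} [Field K] {q n : ℕ} {A : Fib K q n}

/-- the exponents of the entries of the symbols -/
def rowE {M : Type*} [Sub M] (F : Idx A → M) (k : ∀ j, Fin (A.r j)) : Fin (q + n + 1) → M :=
  cases (fun l => F (some (some (Sum.inl l)))) fun j =>
    F (some (some (Sum.inr ⟨j, (k j).succ⟩))) - F (some (some (Sum.inr ⟨j, 0⟩)))

theorem rowE_yi {M : Type*} [Sub M] (F : Idx A → M) (k : ∀ j, Fin (A.r j)) (l : Fin q) :
    rowE F k (yi l) = F (some (some (Sum.inl l))) := cases_yi _ _ l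

theorem rowE_xi {M : Type*} [Sub M] (F : Idx A → M) (k : ∀ j, Fin (A.r j)) (j : Fin (n + 1)) :
    rowE F k (xi j) =
      F (some (some (Sum.inr ⟨j, (k j).succ⟩))) - F (some (some (Sum.inr ⟨j, 0⟩))) :=
  cases_xi _ _ j

/-- the determinant of the orders -/
theorem det_orders' (r : ℕ) (N : Fin (q + n) → ℕ) (m : Fin (q + n + 1) → ℕ)
    (al : Idx A → Fin (q + n + 1) →₀ ℕ)
    (c : ∀ j, Fin (A.r j)) (h0 : ∀ l, al (some (some (Sum.inl l))) = Finsupp.single (yi l) 1)
    (h1 : ∀ j, al (some (some (Sum.inr ⟨j, (c j).succ⟩))) = Finsupp.single (xi j) 1)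
    (h2 : ∀ j i, i ≠ (c j).succ → ∀ l, l ≤ xi j → al (some (some (Sum.inr ⟨j, i⟩))) l = 0)
    (k : ∀ j, Fin (A.r j)) :
    (Matrix.of fun i j => rowE (fun e => mrow r N (nex m fun i => al e i) j) k i).det =
      (if k = c then 1 else 0) * (Matrix.of (yrow r N)).det := by
  have hz : ∀ j, (0 : Fin (A.r j + 1)) ≠ (c j).succ := fun j => (Fin.succ_ne_zero _).symm
  have h : (Matrix.of fun i j => rowE (fun e => mrow r N (nex m fun i => al e i) j) k i) =
      (Matrix.of fun i l => rowE (fun e => ((al e l : ℕ) : ℝ)) k i) *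
      (Matrix.of fun j l => ((ex m j l : ℕ) : ℝ)) * Matrix.of (yrow r N) := by
    have hF : ∀ (e : Idx A) (j : Fin (q + n + 1)), mrow r N (nex m fun i => al e i) j =
        ∑ l, (∑ p, ((al e p : ℕ) : ℝ) * ((ex m p l : ℕ) : ℝ)) * yrow r N l j := by
      intro e j
      unfold mrow
      refine Finset.sum_congr rfl fun i _ => ?_
      rw [sum_nex]
    ext i j
    rw [Matrix.mul_apply]
    simp only [Matrix.of_apply, Matrix.mul_apply]
    refine ind_cases (P := fun i => rowE (fun e => mrow r N (nex m fun i => al e i) j) k i =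
      ∑ x, (∑ p, rowE (fun e => ((al e p : ℕ) : ℝ)) k i * ((ex m p x : ℕ) : ℝ)) *
        yrow r N x j) (fun l => ?_) (fun l => ?_) i
    · simp only [rowE_yi]
      exact hF _ j
    · simp only [rowE_xi]
      rw [hF, hF, ← Finset.sum_sub_distrib]
      refine Finset.sum_congr rfl fun x _ => ?_
      rw [← sub_mul, ← Finset.sum_sub_distrib]
      congr 1
      exact Finset.sum_congr rfl fun p _ => by ring
  rw [h, Matrix.det_mul, Matrix.det_mul, det_ex, mul_one]
  congr 1
  rw [Matrix.det_of_isUpperTriangular]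
  · rw [prod_cases]
    have hy : ∏ l : Fin q, (Matrix.of fun i l => rowE (fun e => ((al e l : ℕ) : ℝ)) k i)
        (yi l) (yi l) = 1 := by
      refine Finset.prod_eq_one fun l _ => ?_
      rw [Matrix.of_apply, rowE_yi, h0, Finsupp.single_eq_same, Nat.cast_one]
    rw [hy, one_mul]
    by_cases hk : k = c
    · subst hk
      rw [if_pos rfl]
      refine Finset.prod_eq_one fun l _ => ?_
      rw [Matrix.of_apply, rowE_xi, h1, h2 l 0 (hz l) _ le_rfl, Finsupp.single_eq_same]
      norm_num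
    · rw [if_neg hk]
      obtain ⟨l, hl⟩ := Function.ne_iff.1 hk
      refine Finset.prod_eq_zero (Finset.mem_univ l) ?_
      rw [Matrix.of_apply, rowE_xi, h2 l 0 (hz l) _ le_rfl, h2 l (k l).succ ?_ _ le_rfl, sub_self]
      exact fun e => hl (Fin.succ_injective _ e)
  · intro i j hij
    have hij' : j < i := hij
    revert hij'
    rw [Matrix.of_apply]
    refine ind_cases (P := fun i => j < i → rowE (fun e => ((al e j : ℕ) : ℝ)) k i = 0)
      (fun l hlj => ?_) (fun l hlj => ?_) i
    · rw [rowE_yi, h0, Finsupp.single_eq_of_ne hlj.ne, Nat.cast_zero]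
    · rw [rowE_xi, h2 l 0 (hz l) j hlj.le]
      by_cases hk : k l = c l
      · rw [hk, h1, Finsupp.single_eq_of_ne hlj.ne]
        simp
      · rw [h2 l (k l).succ (fun e => hk (Fin.succ_injective _ e)) j hlj.le, sub_self]

end det

section main

variable {K : Type*} [Field K] {q n : ℕ} {A : Fib K q n}

theorem sum_idx {M : Type*} [AddCommMonoid M] (f : Idx A → M) :
    ∑ e, f e = f none + (f (some none) + (∑ l, f (some (some (Sum.inl l))) +
      ∑ e, f (some (some (Sum.inr e))))) := by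
  rw [Fintype.sum_option, Fintype.sum_option, Fintype.sum_sum_type]

theorem prod_idx {M : Type*} [CommMonoid M] (f : Idx A → M) :
    ∏ e, f e = f none * (f (some none) * ((∏ l, f (some (some (Sum.inl l)))) *
      ∏ e, f (some (some (Sum.inr e))))) := by
  rw [Fintype.prod_option, Fintype.prod_option, Fintype.prod_sum_type]

theorem exists_torus (σ : K →+* ℂ) (hG : A.Graphs) (hI : A.Interior) (c : ∀ j, Fin (A.r j)) :
    ∃ D : ℝ, D ≠ 0 ∧ ∀ ε : ℝ, 0 < ε →
    ∃ Λ : ℝ, 1 < Λ ∧ ∀ lam : K, Λ ≤ ‖σ lam‖ → ∃ Γ : Torus (A.ORing lam) (q + n),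
      (∀ θ x, Γ.e θ (A.mkO lam (C x)) = σ x) ∧
      ∀ k, |Γ.reg (symb (A.ent lam k)) / (-Real.log ‖σ lam‖) -
          (if k = c then 1 else 0) * D| ≤ ε := by
  classical
  obtain ⟨x, al, hal, hal0, hal1, hal2, hal3, hal4⟩ :=
    exists_chart A σ hG hI fun j => (c j).succ
  set D0 : ℕ := ∑ e, ∑ j, al e j with hD0
  have hD : ∀ e j, al e j ≤ D0 := fun e j =>
    (Finset.single_le_sum (f := fun j => al e j) (fun _ _ => Nat.zero_le _)
      (Finset.mem_univ j)).trans
    (Finset.single_le_sum (f := fun e => ∑ j, al e j) (fun _ _ => Nat.zero_le _)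
      (Finset.mem_univ e))
  obtain ⟨m, hm⟩ := exists_rapid D0 (q + n + 1)
  set μ : Idx A → Fin (q + n + 1) → ℕ := fun e => nex m fun i => al e i with hμdef
  -- comparison of the exponents of `g` and `ψ`
  have hle : ∀ l, μ (some none) l ≤ μ none l := by
    intro l
    rcases Nat.eq_zero_or_pos q with hq | hq
    · have h1 : al (some none) = 0 := by
        ext i
        refine ind_cases (P := fun i => al (some none) i = 0) (fun l' => ?_) (fun j => ?_) i
        · exact absurd l'.isLt (by omega)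
        · exact hal4 j
      have h2 : μ (some none) l = 0 := by
        simp only [hμdef, h1]
        unfold nex
        simp
      omega
    · have h1 := hal3 ⟨0, hq⟩ rfl
      exact (nex_compare hm (α := fun j => al (some none) j) (β := fun j => al none j)
        (fun j => hD _ j) (i := yi ⟨0, hq⟩) (fun j hj => by
          have h2 := Fin.lt_def.1 hj
          rw [yi_val] at h2
          exact absurd h2 (by simp)) h1).1 l
  have hex0 : ∀ (i : Fin (q + n + 1)), (i : ℕ) = 0 → nex m (fun j => (Finsupp.single i 1 :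
      Fin (q + n + 1) →₀ ℕ) j) 0 = 1 := by
    intro i hi
    have hi0 : i = 0 := Fin.ext hi
    subst hi0
    unfold nex
    rw [Finset.sum_eq_single 0]
    · simp [ex]
    · intro j _ hj
      show (Finsupp.single (0 : Fin (q + n + 1)) 1 : Fin (q + n + 1) →₀ ℕ) j * ex m j 0 = 0
      rw [Finsupp.single_eq_of_ne hj, zero_mul]
    · intro h
      exact absurd (Finset.mem_univ _) h
  set P : Fin (q + n + 1) → ℕ := fun l => (μ none l - μ (some none) l) +
    ∑ e : (j : Fin (n + 1)) × Fin (A.r j + 1), μ (some (some (Sum.inr e))) l with hP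
  have hwsum : ∀ l, ∑ e, wt A e * (μ e l : ℤ) = P l := by
    intro l
    rw [sum_idx]
    simp only [wt, one_mul, zero_mul, Finset.sum_const_zero, zero_add, neg_mul]
    rw [hP]
    push_cast [Nat.cast_sub (hle l)]
    ring
  set qq : ℕ := P 0 with hqq
  set N : Fin (q + n) → ℕ := fun k => P k.succ with hN
  have hq0 : 0 < qq := by
    rcases Nat.eq_zero_or_pos q with hq | hq
    · have h1 : μ (some (some (Sum.inr ⟨0, (c 0).succ⟩))) 0 = 1 := by
        simp only [hμdef]
        rw [hal1 0]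
        exact hex0 _ (by rw [xi_val, hq]; rfl)
      have h2 : μ (some (some (Sum.inr ⟨0, (c 0).succ⟩))) 0 ≤
          ∑ e : (j : Fin (n + 1)) × Fin (A.r j + 1), μ (some (some (Sum.inr e))) 0 :=
        Finset.single_le_sum (f := fun e : (j : Fin (n + 1)) × Fin (A.r j + 1) =>
          μ (some (some (Sum.inr e))) 0) (fun _ _ => Nat.zero_le _)
          (Finset.mem_univ (⟨0, (c 0).succ⟩ : (j : Fin (n + 1)) × Fin (A.r j + 1)))
      rw [h1] at h2
      simp only [hqq, hP]
      omega
    · have h1 := hal3 ⟨0, hq⟩ rfl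
      have h2 := (nex_compare hm (α := fun j => al (some none) j) (β := fun j => al none j)
        (fun j => hD _ j) (i := yi ⟨0, hq⟩) (fun j hj => by
          have h2 := Fin.lt_def.1 hj
          rw [yi_val] at h2
          exact absurd h2 (by simp)) h1).2
      have h3 : (yi ⟨0, hq⟩ : Fin (q + n + 1)) = 0 := Fin.ext rfl
      rw [h3] at h2
      have h4 : μ (some none) 0 < μ none 0 := h2
      simp only [hqq, hP]
      omega
  refine ⟨(2 * Real.pi) ^ (q + n) * (Matrix.of (yrow qq N)).det, mul_ne_zero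
    (pow_ne_zero _ (by have := Real.pi_pos; positivity)) (det_yrow hq0 N), fun ε hε => ?_⟩
  choose δ hδ hclose using fun k : ∀ j, Fin (A.r j) =>
    pairing_close (Matrix.of fun i j => rowE (fun e => mrow qq N (μ e) j) k i) hε
  obtain ⟨k0, -, hk0⟩ := Finset.exists_min_image Finset.univ δ ⟨c, Finset.mem_univ _⟩
  set δ0 : ℝ := δ k0 / 3 with hδ0
  have hδ0pos : 0 < δ0 := by
    have := hδ k0
    rw [hδ0]
    linarith
  have hδle : ∀ k, 2 * δ0 < δ k := by
    intro k
    have h1 := hk0 k (Finset.mem_univ k)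
    have h2 := hδ k0
    rw [hδ0]
    linarith
  obtain ⟨η0, hη0, hX⟩ := exists_points' (q := qq) (N := N) (w := wt A)
    (H := fun e u => MvPolynomial.eval (mch m (wcc u)) (bind₁ x (map σ (fct A e))))
    (h := fun e u => hh m (bind₁ x (map σ (fct A e))) (al e) (wcc u))
    (μ := μ)
    (fun e u => by
      rw [eval_mch hm (hal e) (hD e), prod_wcc])
    (fun e => ((contDiff_hh m _ _).comp contDiff_wcc).contDiffAt)
    (fun e => by
      rw [wcc_zero]
      exact hh_zero hm (hal e) (hD e))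
    (hwsum 0) hq0 (fun k => hwsum k.succ) hδ0pos
  have hinvpos : 0 < 1 / η0 := by positivity
  refine ⟨1 / η0 + 2, by linarith, fun lam hlam => ?_⟩
  have hln : 0 < ‖σ lam‖ := by linarith
  have hl0 : σ lam ≠ 0 := norm_pos_iff.1 hln
  have hη : ‖(σ lam)⁻¹‖ < η0 := by
    rw [norm_inv, inv_lt_comm₀ hln hη0, ← one_div]
    linarith
  obtain ⟨hlog, U, hUc, hUp, hUe, hUg, hUest⟩ := hX _ (inv_ne_zero hl0) hη
  have hlogeq : Real.log ‖(σ lam)⁻¹‖ = -Real.log ‖σ lam‖ := by rw [norm_inv, Real.log_inv]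
  rw [hlogeq] at hlog hUest
  set s : ℝ := -Real.log ‖σ lam‖ with hs
  have hs0 : s ≠ 0 := hlog.ne
  set X : (Fin (q + n) → ℝ) → (Fin (q + n + 1) → ℂ) := fun θ j =>
    MvPolynomial.eval (mch m (wcc (U θ))) (x j) with hXdef
  have hval : ∀ (p : MvPolynomial (Fin (q + n + 1)) K) θ, eval₂ σ (X θ) p =
      MvPolynomial.eval (mch m (wcc (U θ))) (bind₁ x (map σ p)) := by
    intro p θ
    unfold MvPolynomial.eval
    rw [MvPolynomial.eval₂Hom_bind₁]
    show _ = MvPolynomial.eval₂ (RingHom.id ℂ) _ (map σ p)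
    rw [MvPolynomial.eval₂_map, RingHom.id_comp]
    rfl
  have hmch : ContDiff ℂ 2 fun u : (Fin (q + n) → ℂ) × ℂ => mch m (wcc u) := by
    refine contDiff_pi.2 fun j => ?_
    unfold mch
    exact contDiff_prod fun l _ => (contDiff_pi.1 contDiff_wcc l).pow _
  have hXc : ContDiff ℝ 2 X := by
    refine contDiff_pi.2 fun j => ?_
    have h1 : ∀ p : MvPolynomial (Fin (q + n + 1)) ℂ, ContDiff ℂ 2
        fun u : (Fin (q + n) → ℂ) × ℂ => MvPolynomial.eval (mch m (wcc u)) p := by
      intro p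
      induction p using MvPolynomial.induction_on with
      | C c => simpa using contDiff_const
      | add p q hp hq => simpa using hp.add hq
      | mul_X p k hp => simpa using hp.mul (contDiff_pi.1 hmch k)
    exact ((h1 (x j)).restrict_scalars ℝ).comp hUc
  have hXp : ∀ θ i, X (θ + Pi.single i 1) = X θ := fun θ i => by
    simp only [hXdef, hUp]
  have hgood : ∀ e, Good fun θ => eval₂ σ (X θ) (fct A e) := fun e => by
    have h1 := hUg e
    simp only [← hval] at h1
    exact h1
  have hPt : ∀ θ, Pt A σ lam (X θ) := fun θ => by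
    refine ⟨?_, fun l => ?_, (hgood (some none)).ne_zero θ⟩
    · have h1 := hUe θ
      rw [prod_idx] at h1
      simp only [← hval, wt, zpow_one, zpow_zero, Finset.prod_const_one, one_mul,
        zpow_neg] at h1
      rw [Fintype.prod_sigma] at h1
      have h2 : eval₂ σ (X θ) A.g * ((eval₂ σ (X θ) A.psi')⁻¹ *
          ∏ j, ∏ i, eval₂ σ (X θ) (A.fac j i)) = (σ lam)⁻¹ := h1
      have h3 : eval₂ σ (X θ) A.psi' ≠ 0 := (hgood (some none)).ne_zero θ
      have h4 : eval₂ σ (X θ) A.g * ∏ j, ∏ i, eval₂ σ (X θ) (A.fac j i) =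
          (σ lam)⁻¹ * eval₂ σ (X θ) A.psi' := by
        rw [← h2]
        field_simp
      rw [h4, ← mul_assoc, mul_inv_cancel₀ hl0, one_mul]
    · have h1 := (hgood (some (some (Sum.inl l)))).ne_zero θ
      have h2 : eval₂ σ (X θ) (fct A (some (some (Sum.inl l)))) = X θ (yi l) := by
        show eval₂ σ (X θ) (MvPolynomial.X (yi l)) = _
        rw [MvPolynomial.eval₂_X]
      rw [h2] at h1
      exact h1
  have hest : ∀ e θ, |Real.log ‖eval₂ σ (X θ) (fct A e)‖ / s -
      mrow qq N (μ e) 0| ≤ δ0 ∧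
      ∀ l, ‖lw (fun θ => eval₂ σ (X θ) (fct A e)) l θ - 2 * Real.pi * Complex.I *
        mrow qq N (μ e) l.succ‖ ≤ δ0 := fun e θ => by
    have h1 := hUest e θ
    simp only [← hval] at h1
    exact h1
  refine ⟨mkT X hXc hXp hPt, fun θ y => ?_, fun k => ?_⟩
  · show evO (hPt θ) (A.mkO lam (C y)) = σ y
    rw [evO_mk, MvPolynomial.eval₂_C]
  have hfin : (if k = c then 1 else 0) * ((2 * Real.pi) ^ (q + n) *
      (Matrix.of (yrow qq N)).det) =
      (2 * Real.pi) ^ (q + n) * (Matrix.of fun i j =>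
        rowE (fun e => mrow qq N (μ e) j) k i).det := by
    rw [show (Matrix.of fun i j => rowE (fun e => mrow qq N (μ e) j) k i).det =
        (if k = c then 1 else 0) * (Matrix.of (yrow qq N)).det from
        det_orders' qq N m al c hal0 hal1 hal2 k]
    ring
  rw [Torus.reg_symb, hfin]
  set Γ := mkT X hXc hXp hPt with hΓ
  have hux : ∀ j i, Γ.fn (A.ux lam j i : A.ORing lam) = fun θ => eval₂ σ (X θ) (A.fac j i) :=
    fun j i => mkT_ux X hXc hXp hPt j i
  have huy : ∀ l, Γ.fn (A.uy lam l : A.ORing lam) =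
      fun θ => eval₂ σ (X θ) (fct A (some (some (Sum.inl l)))) :=
    fun l => mkT_uy X hXc hXp hPt l
  have hgoodE : ∀ l, Good (Γ.fn (A.ent lam k l : A.ORing lam)) := fun l => Γ.good _
  have hentx : ∀ j, A.ent lam k (xi j) = A.ux lam j (k j).succ / A.ux lam j 0 :=
    fun j => cases_xi _ _ j
  have henty : ∀ l, A.ent lam k (yi l) = A.uy lam l := fun l => cases_yi _ _ l
  have hmul : ∀ j, (fun θ => Γ.fn (A.ent lam k (xi j) : A.ORing lam) θ *
      eval₂ σ (X θ) (A.fac j 0)) = fun θ => eval₂ σ (X θ) (A.fac j (k j).succ) := by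
    intro j
    funext θ
    have h1 := congrFun (hux j 0) θ
    have h2 := congrFun (hux j (k j).succ) θ
    rw [← h1, ← h2]
    unfold Torus.fn
    rw [← map_mul]
    congr 1
    rw [hentx, ← Units.val_mul, div_mul_cancel]
  refine hclose k _ _ hs0 hgoodE (fun i θ => ?_) (fun i j θ => ?_)
  · change |Real.log ‖Γ.fn (A.ent lam k i : A.ORing lam) θ‖ / s -
      rowE (fun e => mrow qq N (μ e) 0) k i| < δ k
    refine ind_cases (P := fun i => |Real.log ‖Γ.fn (A.ent lam k i : A.ORing lam) θ‖ / s -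
      rowE (fun e => mrow qq N (μ e) 0) k i| < δ k) (fun l => ?_) (fun l => ?_) i
    · rw [rowE_yi, henty, huy]
      refine ((hest _ θ).1).trans_lt ?_
      linarith [hδle k]
    · rw [rowE_xi]
      have h1 := (hest (some (some (Sum.inr ⟨l, (k l).succ⟩))) θ).1
      have h2 := (hest (some (some (Sum.inr ⟨l, 0⟩))) θ).1
      change |Real.log ‖eval₂ σ (X θ) (A.fac l (k l).succ)‖ / s - _| ≤ δ0 at h1
      change |Real.log ‖eval₂ σ (X θ) (A.fac l 0)‖ / s - _| ≤ δ0 at h2
      have hg0 : eval₂ σ (X θ) (A.fac l 0) ≠ 0 :=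
        (hgood (some (some (Sum.inr ⟨l, 0⟩)))).ne_zero θ
      have h3 : Real.log ‖Γ.fn (A.ent lam k (xi l) : A.ORing lam) θ *
          eval₂ σ (X θ) (A.fac l 0)‖ = Real.log ‖eval₂ σ (X θ) (A.fac l (k l).succ)‖ :=
        congrArg (fun z : ℂ => Real.log ‖z‖) (congrFun (hmul l) θ)
      rw [norm_mul, Real.log_mul (norm_ne_zero_iff.2 ((hgoodE (xi l)).ne_zero θ))
        (norm_ne_zero_iff.2 hg0)] at h3
      have h4 : Real.log ‖Γ.fn (A.ent lam k (xi l) : A.ORing lam) θ‖ =
          Real.log ‖eval₂ σ (X θ) (A.fac l (k l).succ)‖ -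
          Real.log ‖eval₂ σ (X θ) (A.fac l 0)‖ := by
        linarith
      rw [h4, sub_div]
      refine lt_of_le_of_lt ?_ (hδle k)
      have h5 := abs_le.1 h1
      have h6 := abs_le.1 h2
      rw [abs_le]
      constructor <;> linarith [h5.1, h5.2, h6.1, h6.2]
  · change ‖lw (Γ.fn (A.ent lam k i : A.ORing lam)) j θ - 2 * Real.pi * Complex.I *
        ((rowE (fun e => mrow qq N (μ e) j.succ) k i : ℝ) : ℂ)‖ < δ k
    refine ind_cases (P := fun i => ‖lw (Γ.fn (A.ent lam k i : A.ORing lam)) j θ -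
      2 * Real.pi * Complex.I * ((rowE (fun e => mrow qq N (μ e) j.succ) k i : ℝ) : ℂ)‖ < δ k)
      (fun l => ?_) (fun l => ?_) i
    · rw [rowE_yi, henty, huy]
      refine ((hest _ θ).2 j).trans_lt ?_
      linarith [hδle k]
    · rw [rowE_xi]
      have h1 := (hest (some (some (Sum.inr ⟨l, (k l).succ⟩))) θ).2 j
      have h2 := (hest (some (some (Sum.inr ⟨l, 0⟩))) θ).2 j
      change ‖lw (fun θ => eval₂ σ (X θ) (A.fac l (k l).succ)) j θ - _‖ ≤ δ0 at h1
      change ‖lw (fun θ => eval₂ σ (X θ) (A.fac l 0)) j θ - _‖ ≤ δ0 at h2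
      have hgL : Good fun θ => eval₂ σ (X θ) (A.fac l 0) :=
        hgood (some (some (Sum.inr ⟨l, 0⟩)))
      have h3 := lw_mul (hgoodE (xi l)) hgL j θ
      rw [hmul l] at h3
      have h4 : lw (Γ.fn (A.ent lam k (xi l) : A.ORing lam)) j θ =
          lw (fun θ => eval₂ σ (X θ) (A.fac l (k l).succ)) j θ -
          lw (fun θ => eval₂ σ (X θ) (A.fac l 0)) j θ := by
        rw [eq_sub_iff_add_eq]
        exact h3.symm
      refine lt_of_le_of_lt ?_ (hδle k)
      rw [h4]
      have h5 : lw (fun θ => eval₂ σ (X θ) (A.fac l (k l).succ)) j θ -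
          lw (fun θ => eval₂ σ (X θ) (A.fac l 0)) j θ - 2 * Real.pi * Complex.I *
          ((mrow qq N (μ (some (some (Sum.inr ⟨l, (k l).succ⟩)))) j.succ -
            mrow qq N (μ (some (some (Sum.inr ⟨l, 0⟩)))) j.succ : ℝ) : ℂ) =
          (lw (fun θ => eval₂ σ (X θ) (A.fac l (k l).succ)) j θ - 2 * Real.pi * Complex.I *
            mrow qq N (μ (some (some (Sum.inr ⟨l, (k l).succ⟩)))) j.succ) -
          (lw (fun θ => eval₂ σ (X θ) (A.fac l 0)) j θ - 2 * Real.pi * Complex.I *
            mrow qq N (μ (some (some (Sum.inr ⟨l, 0⟩)))) j.succ) := by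
        push_cast
        ring
      rw [h5]
      refine (norm_sub_le _ _).trans ?_
      linarith

end main

end Pool.Agent.K7.H52.TF
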